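import Mathlib

set_option autoImplicit false

namespace Pool.Agent.Helper70

open Finset

/-- Finite minimax (one direction): if against every probability vector `y` on `J` some row `i` has
value at least `c`, then one probability vector on `I` has value at least `c` against every column. -/
theorem exists_mixed {I J : Type*} [Fintype I] [Fintype J] [Nonempty I] (A : I → J → ℝ) (c : ℝ)
    (h : ∀ y : J → ℝ, (∀ j, 0 ≤ y j) → ∑ j, y j = 1 → ∃ i, c ≤ ∑ j, y j * A i j) :
    ∃ x : I → ℝ, (∀ i, 0 ≤ x i) ∧ ∑ i, x i = 1 ∧ ∀ j, c ≤ ∑ i, x i * A i j := by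
  classical
  let T : (I → ℝ) →ₗ[ℝ] (J → ℝ) :=
    { toFun := fun x j => ∑ i, x i * A i j
      map_add' := by
        intro x y; funext j
        simp [add_mul, Finset.sum_add_distrib]
      map_smul' := by
        intro a x; funext j
        simp [mul_assoc, Finset.mul_sum] }
  have hTc : Continuous T := by
    exact LinearMap.continuous_of_finiteDimensional T
  set S : Set (J → ℝ) := T '' (stdSimplex ℝ I) with hS
  set B : Set (J → ℝ) := {z | ∀ j, c ≤ z j} with hB
  have hS1 : Convex ℝ S := (convex_stdSimplex ℝ I).linear_image T
  have hS2 : IsCompact S := (isCompact_stdSimplex ℝ I).image hTc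
  have hB1 : Convex ℝ B := by
    intro z hz w hw a b ha hb hab j
    have h1 := hz j
    have h2 := hw j
    simp only [Pi.add_apply, Pi.smul_apply, smul_eq_mul]
    calc c = (a + b) * c := by rw [hab, one_mul]
      _ = a * c + b * c := by ring
      _ ≤ a * z j + b * w j := by
        exact add_le_add (mul_le_mul_of_nonneg_left h1 ha) (mul_le_mul_of_nonneg_left h2 hb)
  have hB2 : IsClosed B := by
    have : B = ⋂ j, {z : J → ℝ | c ≤ z j} := by
      ext z; simp [hB]
    rw [this]
    exact isClosed_iInter fun j => isClosed_le continuous_const (continuous_apply j)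
  by_cases hd : Disjoint S B
  · exfalso
    obtain ⟨f, u, v, hfu, huv, hvf⟩ := geometric_hahn_banach_compact_closed hS1 hS2 hB1 hB2 hd
    have hfexp : ∀ z : J → ℝ, f z = ∑ j, z j * f (Pi.single j 1) := by
      intro z
      have : z = ∑ j, z j • (Pi.single j (1 : ℝ) : J → ℝ) := by
        funext k
        simp [Finset.sum_apply, Pi.single_apply]
      conv_lhs => rw [this]
      rw [map_sum]
      simp
    set l : J → ℝ := fun j => f (Pi.single j 1) with hl
    have hfc : v < c * ∑ j, l j := by
      have := hvf (fun _ => c) (by intro j; exact le_refl c)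
      rw [hfexp] at this
      rwa [← Finset.mul_sum] at this
    have hlnn : ∀ j, 0 ≤ l j := by
      intro j
      by_contra hneg
      push Not at hneg
      -- choose a large multiple
      set s : ℝ := (c * ∑ j, l j - v) / (- l j) with hs
      have hs0 : 0 ≤ s := by
        apply div_nonneg
        · linarith
        · linarith
      have hmem : (fun k => c + s * (Pi.single j (1 : ℝ) : J → ℝ) k) ∈ B := by
        intro k
        have : 0 ≤ (Pi.single j (1 : ℝ) : J → ℝ) k := by
          by_cases hk : k = j
          · subst hk; simp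
          · simp [Pi.single_apply, hk]
        have := mul_nonneg hs0 this
        linarith
      have h1 := hvf _ hmem
      rw [hfexp] at h1
      have h2 : ∑ k, (c + s * (Pi.single j (1 : ℝ) : J → ℝ) k) * l k = c * (∑ j, l j) + s * l j := by
        simp only [add_mul, Finset.sum_add_distrib, ← Finset.mul_sum]
        congr 1
        simp [Pi.single_apply, mul_assoc]
      change v < ∑ k, (c + s * (Pi.single j (1 : ℝ) : J → ℝ) k) * l k at h1
      rw [h2] at h1
      have h3 : s * l j = - (c * ∑ j, l j - v) := by
        rw [hs, div_mul_eq_mul_div, div_eq_iff (by linarith)]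
        ring
      rw [h3] at h1
      linarith
    have hrow : ∀ i, ∑ j, A i j * l j < u := by
      intro i
      have hmem : T (Pi.single i 1) ∈ S := ⟨_, single_mem_stdSimplex ℝ i, rfl⟩
      have h1 := hfu _ hmem
      rw [hfexp] at h1
      have h2 : ∀ j, T (Pi.single i 1) j = A i j := by
        intro j
        change ∑ k, (Pi.single i (1 : ℝ) : I → ℝ) k * A k j = A i j
        simp [Pi.single_apply]
      simpa [h2] using h1
    set L : ℝ := ∑ j, l j with hL
    have hL0 : 0 ≤ L := Finset.sum_nonneg fun j _ => hlnn j
    rcases hL0.lt_or_eq with hpos | hzero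
    · obtain ⟨i, hi⟩ := h (fun j => l j / L) (fun j => div_nonneg (hlnn j) hL0)
        (by rw [← Finset.sum_div, ← hL, div_self hpos.ne'])
      have h1 : ∑ j, l j / L * A i j = (∑ j, A i j * l j) / L := by
        rw [Finset.sum_div]
        refine Finset.sum_congr rfl fun j _ => ?_
        ring
      rw [h1, le_div_iff₀ hpos] at hi
      have := hrow i
      linarith
    · have hl0 : ∀ j, l j = 0 := by
        intro j
        have := (Finset.sum_eq_zero_iff_of_nonneg (fun j _ => hlnn j)).1 hzero.symm j (Finset.mem_univ j)
        exact this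
      obtain ⟨i⟩ := ‹Nonempty I›
      have := hrow i
      simp only [hl0, mul_zero, Finset.sum_const_zero] at this
      rw [← hzero] at hfc
      linarith
  · rw [Set.not_disjoint_iff] at hd
    obtain ⟨z, ⟨x, hx, rfl⟩, hz⟩ := hd
    exact ⟨x, fun i => hx.1 i, hx.2, fun j => hz j⟩

end Pool.Agent.Helper70
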