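import Mathlib
import Pool.Agent.Helper70.Minimax

set_option autoImplicit false

namespace Pool.Agent.Helper70

open Finset

/-- Positions `(M, B)` (Maker's and Breaker's elements of the board `E`, Maker to move) from which
Maker, claiming one element per turn against `b` per turn, can force the final set to satisfy `goal`. -/
inductive Wins {α : Type*} [DecidableEq α] (E : Finset α) (b : ℕ) (goal : Finset α → Prop) :
    Finset α → Finset α → Prop
  | finish (M B : Finset α) : M ∪ B = E → goal M → Wins E b goal M B
  | move (M B : Finset α) (e : α) : e ∈ E → e ∉ M → e ∉ B →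
      (∀ S : Finset α, S ⊆ E \ (insert e M ∪ B) → S.card = min b (E \ (insert e M ∪ B)).card →
        Wins E b goal (insert e M) (B ∪ S)) → Wins E b goal M B

section Potential

variable {α : Type*} [DecidableEq α]

/-- weight of a set in a position -/
noncomputable def wt (q : ℝ) (g : Finset α → ℝ) (B W : Finset α) : ℝ := g W * (q⁻¹) ^ (W \ B).card

/-- the potential of a position -/
noncomputable def pot (E : Finset α) (q : ℝ) (g : Finset α → ℝ) (M B : Finset α) : ℝ :=
  ∑ W ∈ E.powerset with Disjoint W M, wt q g B W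

/-- the danger of an element -/
noncomputable def danger (E : Finset α) (q : ℝ) (g : Finset α → ℝ) (M B : Finset α) (x : α) : ℝ :=
  ∑ W ∈ (E.powerset.filter fun W => Disjoint W M) with x ∈ W, wt q g B W

lemma wt_nonneg {q : ℝ} {g : Finset α → ℝ} (hq : 0 < q) (hg : ∀ W, 0 ≤ g W) (B W : Finset α) :
    0 ≤ wt q g B W :=
  mul_nonneg (hg W) (pow_nonneg (inv_nonneg.2 hq.le) _)

/-- the key step: after Maker's best move and any answer, the potential has not increased -/
lemma pot_step {E : Finset α} {b : ℕ} (hb : 1 ≤ b) {q : ℝ} {g : Finset α → ℝ} (hq : 0 < q)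
    (hqb : ∀ k : ℕ, k ≤ b → q ^ k ≤ 1 + (k : ℝ) / b) (hg : ∀ W, 0 ≤ g W)
    {M B : Finset α} {e : α} {S : Finset α}
    (hemax : ∀ s ∈ S, danger E q g M B s ≤ danger E q g M B e)
    (hSB : Disjoint S B) (hScard : S.card ≤ b) :
    pot E q g (insert e M) (B ∪ S) ≤ pot E q g M B := by
  have hb0 : (0 : ℝ) < b := by exact_mod_cast hb
  set P : Finset (Finset α) := E.powerset.filter fun W => Disjoint W M with hP
  have hnn : ∀ W, 0 ≤ wt q g B W := fun W => wt_nonneg hq hg B W
  -- pointwise bound
  have hpt : ∀ W, wt q g (B ∪ S) W ≤ wt q g B W + wt q g B W * ((W ∩ S).card : ℝ) / b := by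
    intro W
    have hcard : (W \ B).card = (W \ (B ∪ S)).card + (W ∩ S).card := by
      rw [← Finset.card_union_of_disjoint]
      · congr 1
        ext x
        simp only [Finset.mem_sdiff, Finset.mem_union, Finset.mem_inter]
        have hx0 : x ∈ S → x ∉ B := fun h => Finset.disjoint_left.1 hSB h
        tauto
      · rw [Finset.disjoint_left]
        intro x hx hx'
        simp only [Finset.mem_sdiff, Finset.mem_union, Finset.mem_inter] at hx hx'
        tauto
    have hk : (W ∩ S).card ≤ b := (Finset.card_le_card Finset.inter_subset_right).trans hScard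
    have h1 := hqb _ hk
    have h2 : wt q g (B ∪ S) W = wt q g B W * q ^ (W ∩ S).card := by
      unfold wt
      rw [hcard, pow_add, mul_assoc, mul_assoc, ← mul_pow, inv_mul_cancel₀ hq.ne', one_pow, mul_one]
    rw [h2]
    have h3 := mul_le_mul_of_nonneg_left h1 (hnn W)
    calc wt q g B W * q ^ (W ∩ S).card ≤ wt q g B W * (1 + ((W ∩ S).card : ℝ) / b) := h3
      _ = wt q g B W + wt q g B W * ((W ∩ S).card : ℝ) / b := by ring
  -- index set after the move
  have hidx : (E.powerset.filter fun W => Disjoint W (insert e M)) = P.filter fun W => ¬ e ∈ W := by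
    ext W
    simp only [hP, Finset.mem_filter, Finset.mem_powerset, Finset.disjoint_insert_right]
    tauto
  have hsplit : pot E q g M B
      = danger E q g M B e + ∑ W ∈ P with ¬ e ∈ W, wt q g B W := by
    unfold pot danger
    rw [← hP, Finset.sum_filter_add_sum_filter_not]
  have hdouble : ∑ W ∈ P with ¬ e ∈ W, wt q g B W * ((W ∩ S).card : ℝ)
      ≤ ∑ s ∈ S, danger E q g M B s := by
    have h1 : ∀ W, wt q g B W * ((W ∩ S).card : ℝ) = ∑ s ∈ S, if s ∈ W then wt q g B W else 0 := by
      intro W
      rw [← Finset.sum_filter, Finset.sum_const, nsmul_eq_mul]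
      have : (S.filter fun s => s ∈ W) = W ∩ S := by
        ext x; simp [and_comm]
      rw [this]; ring
    calc ∑ W ∈ P with ¬ e ∈ W, wt q g B W * ((W ∩ S).card : ℝ)
        ≤ ∑ W ∈ P, wt q g B W * ((W ∩ S).card : ℝ) := by
          apply Finset.sum_le_sum_of_subset_of_nonneg (Finset.filter_subset _ _)
          intro W _ _
          exact mul_nonneg (hnn W) (Nat.cast_nonneg _)
      _ = ∑ W ∈ P, ∑ s ∈ S, if s ∈ W then wt q g B W else 0 := by
          exact Finset.sum_congr rfl fun W _ => h1 W
      _ = ∑ s ∈ S, ∑ W ∈ P, if s ∈ W then wt q g B W else 0 := Finset.sum_comm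
      _ = ∑ s ∈ S, danger E q g M B s := by
          refine Finset.sum_congr rfl fun s _ => ?_
          unfold danger
          rw [← hP, Finset.sum_filter (s := P)]
  have hd0 : 0 ≤ danger E q g M B e := Finset.sum_nonneg fun W _ => hnn W
  have hSe : ∑ s ∈ S, danger E q g M B s ≤ b * danger E q g M B e := by
    calc ∑ s ∈ S, danger E q g M B s ≤ ∑ s ∈ S, danger E q g M B e := Finset.sum_le_sum hemax
      _ = S.card * danger E q g M B e := by rw [Finset.sum_const, nsmul_eq_mul]
      _ ≤ b * danger E q g M B e := by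
          apply mul_le_mul_of_nonneg_right _ hd0
          exact_mod_cast hScard
  calc pot E q g (insert e M) (B ∪ S)
      = ∑ W ∈ P with ¬ e ∈ W, wt q g (B ∪ S) W := by unfold pot; rw [hidx]
    _ ≤ ∑ W ∈ P with ¬ e ∈ W, (wt q g B W + wt q g B W * ((W ∩ S).card : ℝ) / b) :=
        Finset.sum_le_sum fun W _ => hpt W
    _ = (∑ W ∈ P with ¬ e ∈ W, wt q g B W)
        + (∑ W ∈ P with ¬ e ∈ W, wt q g B W * ((W ∩ S).card : ℝ)) / b := by
        rw [Finset.sum_add_distrib, Finset.sum_div]
    _ ≤ (∑ W ∈ P with ¬ e ∈ W, wt q g B W) + danger E q g M B e := by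
        gcongr
        rw [div_le_iff₀ hb0]
        linarith [hdouble.trans hSe]
    _ = pot E q g M B := by rw [hsplit]; ring

/-- The biased Erdős–Selfridge criterion with weights: if the weighted sets inside each `D ω` have
total weight more than one and the initial potential is at most one, Maker hits every `D ω`. -/
theorem wins_of_pot {E : Finset α} {b : ℕ} (hb : 1 ≤ b) {q : ℝ} {g : Finset α → ℝ} (hq : 0 < q)
    (hqb : ∀ k : ℕ, k ≤ b → q ^ k ≤ 1 + (k : ℝ) / b) (hg : ∀ W, 0 ≤ g W)
    {Om : Type*} (D : Om → Finset α) (hDE : ∀ ω, D ω ⊆ E)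
    (hcov : ∀ ω, 1 < ∑ W ∈ (D ω).powerset, g W) :
    ∀ (n : ℕ) (M B : Finset α), (E \ (M ∪ B)).card = n → M ⊆ E → B ⊆ E → Disjoint M B →
      pot E q g M B ≤ 1 →
      Wins E b (fun M' => ∀ ω, ¬ Disjoint (D ω) M') M B := by
  intro n
  induction n using Nat.strong_induction_on with
  | _ n ih =>
    intro M B hn hM hB hMB hpot
    by_cases hfree : (E \ (M ∪ B)) = ∅
    · have hE : M ∪ B = E := by
        apply Finset.Subset.antisymm (Finset.union_subset hM hB)
        exact Finset.sdiff_eq_empty_iff_subset.1 hfree
      refine Wins.finish M B hE ?_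
      intro ω hdis
      have hsub : D ω ⊆ B := by
        intro x hx
        have hxE := hDE ω hx
        rw [← hE, Finset.mem_union] at hxE
        rcases hxE with h | h
        · exact absurd h (Finset.disjoint_left.1 hdis hx)
        · exact h
      have h1 : ∑ W ∈ (D ω).powerset, g W ≤ pot E q g M B := by
        unfold pot
        have : ∑ W ∈ (D ω).powerset, g W = ∑ W ∈ (D ω).powerset, wt q g B W := by
          refine Finset.sum_congr rfl fun W hW => ?_
          have hWB : W ⊆ B := (Finset.mem_powerset.1 hW).trans hsub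
          unfold wt
          rw [Finset.sdiff_eq_empty_iff_subset.2 hWB]
          simp
        rw [this]
        apply Finset.sum_le_sum_of_subset_of_nonneg
        · intro W hW
          rw [Finset.mem_powerset] at hW
          rw [Finset.mem_filter, Finset.mem_powerset]
          exact ⟨hW.trans (hDE ω), Finset.disjoint_of_subset_left hW hdis⟩
        · intro W _ _
          exact wt_nonneg hq hg B W
      linarith [hcov ω]
    · obtain ⟨e, he, hemax⟩ := Finset.exists_max_image (E \ (M ∪ B)) (danger E q g M B)
        (Finset.nonempty_iff_ne_empty.2 hfree)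
      have heE : e ∈ E := (Finset.mem_sdiff.1 he).1
      have heMB := (Finset.mem_sdiff.1 he).2
      rw [Finset.mem_union, not_or] at heMB
      refine Wins.move M B e heE heMB.1 heMB.2 ?_
      intro S hS hScard
      have hSfree : ∀ s ∈ S, s ∈ E ∧ s ≠ e ∧ s ∉ M ∧ s ∉ B := by
        intro s hs
        have := hS hs
        simp only [Finset.mem_sdiff, Finset.mem_union, Finset.mem_insert] at this
        tauto
      have hSB : Disjoint S B := Finset.disjoint_left.2 fun s hs => (hSfree s hs).2.2.2
      have hScb : S.card ≤ b := by rw [hScard]; exact min_le_left _ _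
      have hlt : (E \ (insert e M ∪ (B ∪ S))).card < n := by
        rw [← hn]
        apply Finset.card_lt_card
        rw [Finset.ssubset_iff_of_subset]
        · refine ⟨e, he, ?_⟩
          simp
        · intro x hx
          simp only [Finset.mem_sdiff, Finset.mem_union, Finset.mem_insert] at hx ⊢
          tauto
      refine ih _ hlt (insert e M) (B ∪ S) rfl ?_ ?_ ?_ ?_
      · exact Finset.insert_subset heE hM
      · exact Finset.union_subset hB fun s hs => (hSfree s hs).1
      · rw [Finset.disjoint_left]
        intro x hx hx'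
        rw [Finset.mem_insert] at hx
        rw [Finset.mem_union] at hx'
        rcases hx with rfl | hx
        · rcases hx' with hx' | hx'
          · exact heMB.2 hx'
          · exact (hSfree x hx').2.1 rfl
        · rcases hx' with hx' | hx'
          · exact Finset.disjoint_left.1 hMB hx hx'
          · exact (hSfree x hx').2.2.1 hx
      · refine (pot_step hb hq hqb hg ?_ hSB hScb).trans hpot
        intro s hs
        apply hemax
        have := hSfree s hs
        simp only [Finset.mem_sdiff, Finset.mem_union]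
        tauto

/-- **Duality.**  If Maker cannot hit all the sets `D ω` in the `(1 : b)` game, there is a probability
distribution on the index set such that every set `W` is contained in the random `D ω` with probability
at most `q⁻¹ ^ |W|`. -/
theorem exists_spread [Fintype α] {E : Finset α} {b : ℕ} (hb : 1 ≤ b) {q : ℝ} (hq : 0 < q)
    (hqb : ∀ k : ℕ, k ≤ b → q ^ k ≤ 1 + (k : ℝ) / b)
    {Om : Type*} [Fintype Om] (D : Om → Finset α) (hDE : ∀ ω, D ω ⊆ E)
    (hlose : ¬ Wins E b (fun M' => ∀ ω, ¬ Disjoint (D ω) M') ∅ ∅) :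
    ∃ x : Om → ℝ, (∀ ω, 0 ≤ x ω) ∧ ∑ ω, x ω = 1 ∧
      ∀ W : Finset α, ∑ ω with W ⊆ D ω, x ω ≤ (q⁻¹) ^ W.card := by
  have hne : Nonempty Om := by
    by_contra hne
    rw [not_nonempty_iff] at hne
    apply hlose
    refine wins_of_pot hb hq hqb (g := fun _ => 0) (fun _ => le_refl 0) D hDE
      (fun ω => (hne.false ω).elim) _ ∅ ∅ rfl (by simp) (by simp) (by simp) ?_
    unfold pot wt
    simp
  obtain ⟨x, hx0, hx1, hx⟩ := exists_mixed (I := Om) (J := Finset α)
    (fun ω W => if W ⊆ D ω then - q ^ W.card else 0) (-1) (by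
      intro y hy0 hy1
      by_contra hcon
      push Not at hcon
      apply hlose
      refine wins_of_pot hb hq hqb (g := fun W => y W * q ^ W.card)
        (fun W => mul_nonneg (hy0 W) (pow_nonneg hq.le _)) D hDE ?_ _ ∅ ∅ rfl (by simp) (by simp)
        (by simp) ?_
      · intro ω
        have h1 := hcon ω
        have h2 : ∑ j, y j * (if j ⊆ D ω then - q ^ j.card else 0)
            = - ∑ W ∈ (D ω).powerset, y W * q ^ W.card := by
          rw [← Finset.sum_neg_distrib]
          have : (D ω).powerset = Finset.univ.filter fun W => W ⊆ D ω := by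
            ext W; simp
          rw [this, Finset.sum_filter]
          refine Finset.sum_congr rfl fun W _ => ?_
          by_cases h : W ⊆ D ω
          · simp [h]
          · simp [h]
        rw [h2] at h1
        linarith
      · unfold pot wt
        calc ∑ W ∈ E.powerset with Disjoint W ∅, y W * q ^ W.card * (q⁻¹) ^ (W \ ∅).card
            = ∑ W ∈ E.powerset with Disjoint W ∅, y W := by
              refine Finset.sum_congr rfl fun W _ => ?_
              rw [Finset.sdiff_empty, mul_assoc, ← mul_pow, mul_inv_cancel₀ hq.ne', one_pow, mul_one]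
          _ ≤ ∑ W, y W := by
              apply Finset.sum_le_sum_of_subset_of_nonneg (Finset.subset_univ _)
              intro W _ _
              exact hy0 W
          _ = 1 := hy1)
  refine ⟨x, hx0, hx1, fun W => ?_⟩
  have h1 := hx W
  have h2 : ∑ i, x i * (if W ⊆ D i then - q ^ W.card else 0)
      = - ((∑ ω with W ⊆ D ω, x ω) * q ^ W.card) := by
    rw [Finset.sum_filter, Finset.sum_mul, ← Finset.sum_neg_distrib]
    refine Finset.sum_congr rfl fun i _ => ?_
    by_cases h : W ⊆ D i
    · simp [h]
    · simp [h]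
  rw [h2] at h1
  have h3 : (∑ ω with W ⊆ D ω, x ω) * q ^ W.card ≤ 1 := by linarith
  rw [inv_pow, ← one_div, le_div_iff₀ (pow_pos hq _)]
  exact h3

end Potential

/-- the constant `q = 2 ^ (1 / b)` -/
noncomputable def qq (b : ℕ) : ℝ := Real.exp (Real.log 2 / b)

lemma qq_pos (b : ℕ) : 0 < qq b := Real.exp_pos _

lemma log_qq (b : ℕ) : Real.log (qq b) = Real.log 2 / b := Real.log_exp _

lemma qq_pow_le {b : ℕ} (hb : 1 ≤ b) (k : ℕ) (hk : k ≤ b) : qq b ^ k ≤ 1 + (k : ℝ) / b := by
  have hb0 : (0 : ℝ) < b := by exact_mod_cast hb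
  have hc1 : (0 : ℝ) ≤ 1 - (k : ℝ) / (b : ℝ) := by
    rw [sub_nonneg, div_le_one hb0]
    exact_mod_cast hk
  have hc2 : (0 : ℝ) ≤ (k : ℝ) / (b : ℝ) := by positivity
  have hconv := convexOn_exp.2 (Set.mem_univ (0 : ℝ)) (Set.mem_univ (Real.log 2))
    hc1 hc2 (by ring)
  simp only [smul_eq_mul, mul_zero, zero_add, Real.exp_zero, mul_one] at hconv
  rw [Real.exp_log (by norm_num)] at hconv
  have : qq b ^ k = Real.exp ((k : ℝ) / b * Real.log 2) := by
    unfold qq
    rw [← Real.exp_nat_mul]
    congr 1
    ring
  rw [this]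
  linarith

end Pool.Agent.Helper70
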