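import Mathlib

set_option autoImplicit false

namespace Pool.Agent.Helper70

/-- `MakerWins G b goal M B`: in the `(1 : b)` Maker-Breaker game on the edges of `G`, from the position
in which Maker owns the edges `M`, Breaker owns the edges `B` and Maker is to move, Maker (claiming one
edge per turn, Breaker claiming `b`, or all the remaining edges if fewer than `b` remain) can force
that, when every edge is claimed, the set `M` of her edges satisfies `goal`. -/
inductive MakerWins {V : Type} (G : SimpleGraph V) (b : ℕ) (goal : Set (Sym2 V) → Prop) :
    Set (Sym2 V) → Set (Sym2 V) → Prop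
  | finish (M B : Set (Sym2 V)) : M ∪ B = G.edgeSet → goal M → MakerWins G b goal M B
  | move (M B : Set (Sym2 V)) (e : Sym2 V) : e ∈ G.edgeSet → e ∉ M → e ∉ B →
      (∀ S : Set (Sym2 V), S ⊆ G.edgeSet \ (insert e M ∪ B) →
        S.ncard = min b (G.edgeSet \ (insert e M ∪ B)).ncard →
        MakerWins G b goal (insert e M) (B ∪ S)) → MakerWins G b goal M B

open Classical in
/-- `w` is a fractional colouring of `G`: a nonnegative weight on the sets of vertices, supported on
independent sets, such that the sets containing any given vertex have total weight at least one. -/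
def IsFracColoring {V : Type} [Fintype V] (G : SimpleGraph V) (w : Finset V → ℝ) : Prop :=
  (∀ I, 0 ≤ w I) ∧ (∀ I, w I ≠ 0 → G.IsIndepSet (I : Set V)) ∧ ∀ v, 1 ≤ ∑ I with v ∈ I, w I

/-- The fractional chromatic number: the least total weight of a fractional colouring. -/
noncomputable def fracChromatic {V : Type} [Fintype V] (G : SimpleGraph V) : ℝ :=
  sInf {t : ℝ | ∃ w : Finset V → ℝ, IsFracColoring G w ∧ t = ∑ I, w I}

open Classical in
/-- `H` is `k`-colourable up to `ε`: there is a probability distribution on the sets of vertices,
supported on sets that induce `k`-colourable subgraphs of `H`, for which the random set contains every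
given vertex with probability at least `1 - ε`. -/
def NearlyColorable {V : Type} [Fintype V] (H : SimpleGraph V) (k : ℕ) (ε : ℝ) : Prop :=
  ∃ x : Finset V → ℝ, (∀ S, 0 ≤ x S) ∧ ∑ S, x S = 1 ∧
    (∀ S, x S ≠ 0 → (H.induce (S : Set V)).Colorable k) ∧ ∀ v, 1 - ε ≤ ∑ S with v ∈ S, x S

end Pool.Agent.Helper70
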