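import Mathlib
import Pool.Agent.Helper70.Minimax
import Pool.Agent.Helper70.GameDefs

set_option autoImplicit false

namespace Pool.Agent.Helper70

open Finset

section Frac

variable {V : Type} [Fintype V]

lemma frac_bddBelow (G : SimpleGraph V) :
    BddBelow {t : ℝ | ∃ w : Finset V → ℝ, IsFracColoring G w ∧ t = ∑ I, w I} := by
  refine ⟨0, ?_⟩
  rintro t ⟨w, hw, rfl⟩
  exact Finset.sum_nonneg fun I _ => hw.1 I

open Classical in
/-- A random independent set containing every vertex with probability at least `a` bounds the
fractional chromatic number by `1 / a`. -/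
lemma fracChromatic_le_of_family (G : SimpleGraph V) {Om : Type*} [Fintype Om] (x : Om → ℝ)
    (hx0 : ∀ ω, 0 ≤ x ω) (hx1 : ∑ ω, x ω = 1) (I : Om → Finset V)
    (hI : ∀ ω, G.IsIndepSet (I ω : Set V)) {a : ℝ} (ha : 0 < a)
    (hcov : ∀ v, a ≤ ∑ ω, if v ∈ I ω then x ω else 0) : fracChromatic G ≤ 1 / a := by
  unfold fracChromatic
  apply csInf_le (frac_bddBelow G)
  refine ⟨fun T => (∑ ω with I ω = T, x ω) / a, ⟨?_, ?_, ?_⟩, ?_⟩
  · intro T
    exact div_nonneg (Finset.sum_nonneg fun ω _ => hx0 ω) ha.le
  · intro T hT
    by_contra hcon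
    apply hT
    have : (Finset.univ.filter fun ω => I ω = T) = ∅ := by
      rw [Finset.filter_eq_empty_iff]
      rintro ω _ rfl
      exact hcon (hI ω)
    beta_reduce
    rw [this]
    simp
  · intro v
    rw [← Finset.sum_div, le_div_iff₀ ha, one_mul]
    refine (hcov v).trans (le_of_eq ?_)
    rw [← Finset.sum_filter]
    rw [← Finset.sum_fiberwise_of_maps_to
      (s := Finset.univ.filter fun ω => v ∈ I ω) (t := Finset.univ.filter fun T : Finset V => v ∈ T)
      (g := I) (by intro ω hω; simpa using hω)]
    refine Finset.sum_congr (by congr) fun T hT => ?_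
    refine Finset.sum_congr ?_ fun _ _ => rfl
    ext ω
    simp only [Finset.mem_filter, Finset.mem_univ, true_and] at hT ⊢
    constructor
    · rintro ⟨_, h⟩; exact h
    · rintro rfl; exact ⟨hT, rfl⟩
  · rw [← Finset.sum_div, Finset.sum_fiberwise, hx1]

/-- Weak duality. -/
lemma le_fracChromatic (G : SimpleGraph V) (y : V → ℝ) (hy0 : ∀ v, 0 ≤ y v) (hy1 : ∑ v, y v = 1)
    {m : ℝ} (hm : 0 < m) (h : ∀ I : Finset V, G.IsIndepSet (I : Set V) → ∑ v ∈ I, y v ≤ m) :
    1 / m ≤ fracChromatic G := by
  classical
  unfold fracChromatic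
  apply le_csInf
  · refine ⟨_, fun T => if T.card = 1 then 1 else 0, ⟨?_, ?_, ?_⟩, rfl⟩
    · intro T; beta_reduce; split_ifs <;> norm_num
    · intro T hT
      have hc : T.card = 1 := by
        by_contra hne
        apply hT
        simp [hne]
      obtain ⟨v, rfl⟩ := Finset.card_eq_one.1 hc
      simp
    · intro v
      have h0 : (1 : ℝ) = ∑ T ∈ ({({v} : Finset V)} : Finset (Finset V)), if T.card = 1 then (1 : ℝ) else 0 := by
        rw [Finset.sum_singleton, Finset.card_singleton, if_pos rfl]
      refine le_trans (le_of_eq h0) ?_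
      apply Finset.sum_le_sum_of_subset_of_nonneg
      · intro T hT
        rw [Finset.mem_singleton] at hT
        subst hT
        simp
      · intro T _ _
        beta_reduce
        split_ifs <;> norm_num
  · rintro t ⟨w, hw, rfl⟩
    rw [div_le_iff₀ hm]
    calc (1 : ℝ) = ∑ v, y v := hy1.symm
      _ ≤ ∑ v, y v * ∑ I with v ∈ I, w I := by
          refine Finset.sum_le_sum fun v _ => ?_
          have := mul_le_mul_of_nonneg_left (hw.2.2 v) (hy0 v)
          rw [mul_one] at this
          refine this.trans (le_of_eq ?_)
          congr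
      _ = ∑ v, ∑ I, if v ∈ I then y v * w I else 0 := by
          refine Finset.sum_congr rfl fun v _ => ?_
          rw [Finset.mul_sum, Finset.sum_filter]
      _ = ∑ I, ∑ v, if v ∈ I then y v * w I else 0 := Finset.sum_comm
      _ = ∑ I : Finset V, w I * ∑ v ∈ I, y v := by
          refine Finset.sum_congr rfl fun I _ => ?_
          rw [← Finset.sum_filter, Finset.mul_sum]
          have : (Finset.univ.filter fun v => v ∈ I) = I := by ext; simp
          rw [this]
          refine Finset.sum_congr rfl fun v _ => mul_comm _ _
      _ ≤ ∑ I, w I * m := by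
          refine Finset.sum_le_sum fun I _ => ?_
          by_cases hI : w I = 0
          · rw [hI]; simp
          · exact mul_le_mul_of_nonneg_left (h I (hw.2.1 I hI)) (hw.1 I)
      _ = (∑ I, w I) * m := by rw [Finset.sum_mul]

/-- Strong duality, in the form used: if for every probability weight on the vertices some independent
set has weight at least `a`, the fractional chromatic number is at most `1 / a`. -/
lemma fracChromatic_le_of_forall_weight (G : SimpleGraph V) {a : ℝ} (ha : 0 < a)
    (h : ∀ y : V → ℝ, (∀ v, 0 ≤ y v) → ∑ v, y v = 1 →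
      ∃ I : Finset V, G.IsIndepSet (I : Set V) ∧ a ≤ ∑ v ∈ I, y v) : fracChromatic G ≤ 1 / a := by
  classical
  let Om := {I : Finset V // G.IsIndepSet (I : Set V)}
  have hne : Nonempty Om := ⟨⟨∅, by simp⟩⟩
  obtain ⟨x, hx0, hx1, hx⟩ := exists_mixed (I := Om) (J := V)
    (fun I v => if v ∈ I.1 then (1 : ℝ) else 0) a (by
      intro y hy0 hy1
      obtain ⟨I, hI, hIa⟩ := h y hy0 hy1
      refine ⟨⟨I, hI⟩, hIa.trans (le_of_eq ?_)⟩
      simp only [mul_ite, mul_one, mul_zero]
      rw [← Finset.sum_filter]
      refine Finset.sum_congr ?_ fun _ _ => rfl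
      ext; simp)
  refine fracChromatic_le_of_family G x hx0 hx1 (fun I => I.1) (fun I => I.2) ha ?_
  intro v
  refine (hx v).trans (le_of_eq ?_)
  refine Finset.sum_congr rfl fun I _ => ?_
  by_cases hv : v ∈ I.1 <;> simp [hv]

/-- a proper colouring with `k` colours bounds the fractional chromatic number by `k` -/
lemma fracChromatic_le_of_colorable (G : SimpleGraph V) {k : ℕ} (hk : 1 ≤ k)
    (h : G.Colorable k) : fracChromatic G ≤ k := by
  classical
  obtain ⟨C⟩ := h
  have hk0 : (0 : ℝ) < k := by exact_mod_cast hk
  have := fracChromatic_le_of_family G (Om := Fin k) (fun _ => (1 : ℝ) / k)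
    (fun _ => by positivity) (by simp [hk0.ne']) (fun a => Finset.univ.filter fun v => C v = a)
    (by
      intro a u hu v hv _ hadj
      simp only [Finset.coe_filter, Finset.mem_univ, true_and, Set.mem_setOf_eq] at hu hv
      exact C.valid hadj (hu.trans hv.symm)) (a := 1 / k) (by positivity)
    (by
      intro v
      simp)
  simpa using this

end Frac

section Degenerate

variable {V : Type} [Fintype V]

open Classical in
/-- if every vertex has at most `d` neighbours of smaller rank, the graph is `d + 1` colourable -/
theorem colorable_of_rank (H : SimpleGraph V) (ρ : V → ℕ) (hρ : Function.Injective ρ) (d : ℕ)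
    (hd : ∀ v, (Finset.univ.filter fun u => H.Adj u v ∧ ρ u < ρ v).card ≤ d) :
    H.Colorable (d + 1) := by
  have key : ∀ n : ℕ, ∃ c : V → Fin (d + 1), ∀ u v, ρ u < n → ρ v < n → H.Adj u v → c u ≠ c v := by
    intro n
    induction n with
    | zero => exact ⟨fun _ => 0, fun u v hu => by omega⟩
    | succ n ih =>
      obtain ⟨c, hc⟩ := ih
      by_cases hex : ∃ v, ρ v = n
      · obtain ⟨v, hv⟩ := hex
        -- a free colour
        obtain ⟨a, ha⟩ : ∃ a : Fin (d + 1), a ∉ (Finset.univ.filter fun u => H.Adj u v ∧ ρ u < ρ v).image c := by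
          by_contra hcon
          push Not at hcon
          have h1 : (Finset.univ : Finset (Fin (d + 1))).card
              ≤ ((Finset.univ.filter fun u => H.Adj u v ∧ ρ u < ρ v).image c).card :=
            Finset.card_le_card fun a _ => hcon a
          have h2 := h1.trans (Finset.card_image_le.trans (hd v))
          simp at h2
        refine ⟨fun u => if u = v then a else c u, ?_⟩
        intro u w hu hw hadj
        have hfree : ∀ u, H.Adj u v → ρ u < ρ v → c u ≠ a := by
          intro u hu1 hu2 hcu
          apply ha
          rw [Finset.mem_image]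
          exact ⟨u, by simp [hu1, hu2], hcu⟩
        by_cases h1 : u = v
        · by_cases h2 : w = v
          · subst h1 h2
            exact absurd hadj (H.irrefl)
          · subst h1
            simp only [if_true, if_neg h2]
            have hρw : ρ w < ρ u := by
              have : ρ w ≠ ρ u := fun h => h2 (hρ h)
              omega
            exact (hfree w hadj.symm hρw).symm
        · by_cases h2 : w = v
          · subst h2
            simp only [if_true, if_neg h1]
            have hρu : ρ u < ρ w := by
              have : ρ u ≠ ρ w := fun h => h1 (hρ h)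
              omega
            exact hfree u hadj hρu
          · simp only [if_neg h1, if_neg h2]
            have hρu : ρ u ≠ ρ v := fun h => h1 (hρ h)
            have hρw : ρ w ≠ ρ v := fun h => h2 (hρ h)
            exact hc u w (by omega) (by omega) hadj
      · push Not at hex
        refine ⟨c, fun u w hu hw hadj => hc u w ?_ ?_ hadj⟩
        · have := hex u; omega
        · have := hex w; omega
  obtain ⟨c, hc⟩ := key ((Finset.univ.sup ρ) + 1)
  exact ⟨SimpleGraph.Coloring.mk c fun {u v} hadj =>
    hc u v (Nat.lt_succ_of_le (Finset.le_sup (Finset.mem_univ u)))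
      (Nat.lt_succ_of_le (Finset.le_sup (Finset.mem_univ v))) hadj⟩

/-- weighted degeneracy ordering -/
theorem exists_rank [DecidableEq V] (y : V → V → ℝ) (hy : ∀ u v, 0 ≤ y u v) (a : V → ℝ)
    (h : ∀ X : Finset V, ∑ v ∈ X, ∑ u ∈ X, y u v ≤ 2 * ∑ v ∈ X, a v) :
    ∃ ρ : V → ℕ, Function.Injective ρ ∧ ∀ v, ∑ u with ρ u < ρ v, y u v ≤ 2 * a v := by
  have key : ∀ (n : ℕ) (X : Finset V), X.card = n → ∃ ρ : V → ℕ, Set.InjOn ρ X ∧ (∀ v ∈ X, ρ v < n) ∧
      ∀ v ∈ X, ∑ u ∈ X with ρ u < ρ v, y u v ≤ 2 * a v := by
    intro n
    induction n with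
    | zero =>
      intro X hX
      rw [Finset.card_eq_zero] at hX
      subst hX
      exact ⟨fun _ => 0, by simp, by simp, by simp⟩
    | succ n ih =>
      intro X hX
      have hXne : X.Nonempty := by
        rw [← Finset.card_pos]; omega
      obtain ⟨v, hv, hva⟩ : ∃ v ∈ X, ∑ u ∈ X, y u v ≤ 2 * a v := by
        by_contra hcon
        push Not at hcon
        have h1 : ∑ v ∈ X, 2 * a v < ∑ v ∈ X, ∑ u ∈ X, y u v :=
          Finset.sum_lt_sum_of_nonempty hXne hcon
        rw [← Finset.mul_sum] at h1
        linarith [h X]
      obtain ⟨ρ, hinj, hlt, hsum⟩ := ih (X.erase v) (by rw [Finset.card_erase_of_mem hv]; omega)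
      refine ⟨fun u => if u = v then n else ρ u, ?_, ?_, ?_⟩
      · intro u hu w hw huw
        simp only at huw
        by_cases h1 : u = v
        · by_cases h2 : w = v
          · rw [h1, h2]
          · simp only [h1, if_true, if_neg h2] at huw
            have := hlt w (Finset.mem_erase.2 ⟨h2, hw⟩)
            omega
        · by_cases h2 : w = v
          · simp only [h2, if_true, if_neg h1] at huw
            have := hlt u (Finset.mem_erase.2 ⟨h1, hu⟩)
            omega
          · simp only [if_neg h1, if_neg h2] at huw
            exact hinj (by simp [h1, Finset.mem_coe.1 hu]) (by simp [h2, Finset.mem_coe.1 hw]) huw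
      · intro u hu
        by_cases h1 : u = v
        · simp [h1]
        · simp only [if_neg h1]
          have := hlt u (Finset.mem_erase.2 ⟨h1, hu⟩)
          omega
      · intro w hw
        by_cases h2 : w = v
        · subst h2
          refine le_trans ?_ hva
          exact Finset.sum_le_sum_of_subset_of_nonneg (Finset.filter_subset _ _) fun _ _ _ => hy _ _
        · have hw' : w ∈ X.erase v := Finset.mem_erase.2 ⟨h2, hw⟩
          refine le_trans (le_of_eq ?_) (hsum w hw')
          refine Finset.sum_congr ?_ fun _ _ => rfl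
          ext u
          simp only [Finset.mem_filter, Finset.mem_erase, if_neg h2]
          by_cases h1 : u = v
          · subst h1
            have := hlt w hw'
            simp only [if_true]
            constructor
            · rintro ⟨_, h⟩; omega
            · rintro ⟨⟨h, _⟩, _⟩; exact absurd rfl h
          · simp only [if_neg h1]
            tauto
  obtain ⟨ρ, hinj, _, hsum⟩ := key _ (Finset.univ : Finset V) rfl
  refine ⟨ρ, fun u v h => hinj (by simp) (by simp) h, fun v => hsum v (Finset.mem_univ v)⟩

end Degenerate

end Pool.Agent.Helper70
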