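import Mathlib
import Pool.Agent.Helper70.Minimax
import Pool.Agent.Helper70.BiasedGame
import Pool.Agent.Helper70.GameDefs

set_option autoImplicit false

namespace Pool.Agent.Helper70

open Finset

section Bridge

variable {V : Type} [Fintype V] [DecidableEq V]

lemma ncard_coe_sdiff (G : SimpleGraph V) [DecidableRel G.Adj] (M B : Finset (Sym2 V)) (e : Sym2 V) :
    (G.edgeSet \ (insert e (M : Set (Sym2 V)) ∪ (B : Set (Sym2 V))))
      = ((G.edgeFinset \ (insert e M ∪ B) : Finset (Sym2 V)) : Set (Sym2 V)) := by
  simp [Set.insert_union]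

lemma makerWins_of_wins (G : SimpleGraph V) [DecidableRel G.Adj] (b : ℕ)
    {goalF : Finset (Sym2 V) → Prop} {goal : Set (Sym2 V) → Prop}
    (hgoal : ∀ M : Finset (Sym2 V), M ⊆ G.edgeFinset → goalF M → goal M)
    {M B : Finset (Sym2 V)} (h : Wins G.edgeFinset b goalF M B) :
    MakerWins G b goal (M : Set (Sym2 V)) (B : Set (Sym2 V)) := by
  induction h with
  | finish M B hMB hg =>
    refine MakerWins.finish _ _ ?_ (hgoal M ?_ hg)
    · rw [← Finset.coe_union, hMB, SimpleGraph.coe_edgeFinset]
    · rw [← hMB]; exact Finset.subset_union_left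
  | move M B e he heM heB _ ih =>
    refine MakerWins.move _ _ e ?_ ?_ ?_ ?_
    · simpa using he
    · simpa using heM
    · simpa using heB
    · intro S hS hcard
      rw [ncard_coe_sdiff] at hS hcard
      have hfin : S.Finite := Set.Finite.subset (Finset.finite_toSet _) hS
      obtain ⟨S', rfl⟩ := hfin.exists_finset_coe
      have h1 := ih S' (by exact_mod_cast hS) (by
        rw [Set.ncard_coe_finset, Set.ncard_coe_finset] at hcard
        exact hcard)
      simpa using h1

lemma wins_of_makerWins (G : SimpleGraph V) [DecidableRel G.Adj] (b : ℕ)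
    {goal : Set (Sym2 V) → Prop}
    {M' B' : Set (Sym2 V)} (h : MakerWins G b goal M' B') :
    ∀ M B : Finset (Sym2 V), (M : Set (Sym2 V)) = M' → (B : Set (Sym2 V)) = B' →
      Wins G.edgeFinset b (fun M => goal (M : Set (Sym2 V))) M B := by
  induction h with
  | finish M' B' hMB hg =>
    intro M B hM hB
    subst hM hB
    refine Wins.finish _ _ ?_ hg
    apply Finset.coe_injective
    rw [Finset.coe_union, hMB, SimpleGraph.coe_edgeFinset]
  | move M' B' e he heM heB _ ih =>
    intro M B hM hB
    subst hM hB
    refine Wins.move _ _ e ?_ ?_ ?_ ?_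
    · simpa using he
    · simpa using heM
    · simpa using heB
    · intro S hS hcard
      refine ih (S : Set (Sym2 V)) ?_ ?_ (insert e M) (B ∪ S) (by simp) (by simp)
      · rw [ncard_coe_sdiff]
        exact_mod_cast hS
      · rw [ncard_coe_sdiff, Set.ncard_coe_finset, Set.ncard_coe_finset]
        exact hcard

end Bridge

section Mono

variable {α : Type*} [DecidableEq α]

lemma wins_of_goal {E : Finset α} {b : ℕ} {goal : Finset α → Prop}
    (hmono : ∀ M M' : Finset α, M ⊆ M' → goal M → goal M') :
    ∀ (n : ℕ) (M B : Finset α), (E \ (M ∪ B)).card = n → M ⊆ E → B ⊆ E → goal M →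
      Wins E b goal M B := by
  intro n
  induction n using Nat.strong_induction_on with
  | _ n ih =>
    intro M B hn hM hB hg
    by_cases hfree : (E \ (M ∪ B)) = ∅
    · refine Wins.finish M B ?_ hg
      apply Finset.Subset.antisymm (Finset.union_subset hM hB)
      exact Finset.sdiff_eq_empty_iff_subset.1 hfree
    · obtain ⟨e, he⟩ := Finset.nonempty_iff_ne_empty.2 hfree
      have heE : e ∈ E := (Finset.mem_sdiff.1 he).1
      have heMB := (Finset.mem_sdiff.1 he).2
      rw [Finset.mem_union, not_or] at heMB
      refine Wins.move M B e heE heMB.1 heMB.2 ?_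
      intro S hS _
      refine ih _ ?_ (insert e M) (B ∪ S) rfl (Finset.insert_subset heE hM) ?_ ?_
      · rw [← hn]
        apply Finset.card_lt_card
        rw [Finset.ssubset_iff_of_subset]
        · refine ⟨e, he, ?_⟩
          simp
        · intro x hx
          simp only [Finset.mem_sdiff, Finset.mem_union, Finset.mem_insert] at hx ⊢
          tauto
      · refine Finset.union_subset hB fun s hs => ?_
        exact (Finset.mem_sdiff.1 (hS hs)).1
      · exact hmono _ _ (Finset.subset_insert e M) hg

lemma wins_mono_board {E' E : Finset α} (hE : E' ⊆ E) {b : ℕ} {goal : Finset α → Prop}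
    (hmono : ∀ M M' : Finset α, M ⊆ M' → goal M → goal M')
    {M B' : Finset α} (h : Wins E' b goal M B') :
    M ⊆ E' → ∀ B : Finset α, B ⊆ E → B ∩ E' ⊆ B' → Wins E b goal M B := by
  induction h with
  | finish M B' hMB hg =>
    intro hM B hB _
    exact wins_of_goal hmono _ M B rfl (hM.trans hE) hB hg
  | move M B' e he heM heB _ ih =>
    intro hM B hB hBB
    refine Wins.move M B e (hE he) heM ?_ ?_
    · intro heB2
      exact heB (hBB (Finset.mem_inter.2 ⟨heB2, he⟩))
    · intro S hS hcard
      set F' : Finset α := E' \ (insert e M ∪ B') with hF'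
      set S1 : Finset α := (S ∩ E') \ B' with hS1
      have hS1F : S1 ⊆ F' := by
        intro x hx
        have hx1 : x ∈ S ∧ x ∈ E' ∧ x ∉ B' := by
          simp only [hS1, Finset.mem_sdiff, Finset.mem_inter] at hx
          tauto
        have hx2 := hS hx1.1
        simp only [Finset.mem_sdiff, Finset.mem_union, not_or] at hx2
        simp only [hF', Finset.mem_sdiff, Finset.mem_union, not_or]
        exact ⟨hx1.2.1, hx2.2.1, hx1.2.2⟩
      have hS1b : S1.card ≤ min b F'.card := by
        refine le_min ?_ (Finset.card_le_card hS1F)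
        calc S1.card ≤ S.card := Finset.card_le_card
              (Finset.sdiff_subset.trans Finset.inter_subset_left)
          _ ≤ b := by rw [hcard]; exact min_le_left _ _
      obtain ⟨S2, hS12, hS2F, hS2c⟩ := Finset.exists_subsuperset_card_eq hS1F hS1b (min_le_right _ _)
      refine ih S2 hS2F hS2c (Finset.insert_subset he hM) (B ∪ S) ?_ ?_
      · refine Finset.union_subset hB fun s hs => ?_
        exact (Finset.mem_sdiff.1 (hS hs)).1
      · intro x hx
        rw [Finset.mem_inter, Finset.mem_union] at hx
        rw [Finset.mem_union]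
        by_cases hxB : x ∈ B'
        · exact Or.inl hxB
        · rcases hx.1 with h1 | h1
          · exact Or.inl (hBB (Finset.mem_inter.2 ⟨h1, hx.2⟩))
          · refine Or.inr (hS12 ?_)
            simp only [hS1, Finset.mem_sdiff, Finset.mem_inter]
            exact ⟨⟨h1, hx.2⟩, hxB⟩

end Mono

/-- Monotonicity of the game in the board. -/
theorem makerWins_mono {V : Type} [Fintype V] {H G : SimpleGraph V} (hHG : H ≤ G) {b : ℕ}
    {goal : Set (Sym2 V) → Prop} (hmono : ∀ M M' : Set (Sym2 V), M ⊆ M' → goal M → goal M')
    (h : MakerWins H b goal ∅ ∅) : MakerWins G b goal ∅ ∅ := by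
  classical
  have h1 := wins_of_makerWins H b h ∅ ∅ (by simp) (by simp)
  have h2 : Wins G.edgeFinset b (fun M => goal (M : Set (Sym2 V))) ∅ ∅ := by
    refine wins_mono_board ?_ ?_ h1 (by simp) ∅ (by simp) (by simp)
    · exact SimpleGraph.edgeFinset_mono hHG
    · intro M M' hM hg
      exact hmono _ _ (by exact_mod_cast hM) hg
  have h3 := makerWins_of_wins G b (goal := goal) (fun M _ hg => hg) h2
  simpa using h3

end Pool.Agent.Helper70
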