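import Mathlib
import Pool.Agent.Helper70.Minimax
import Pool.Agent.Helper70.BiasedGame
import Pool.Agent.Helper70.GameDefs
import Pool.Agent.Helper70.GraphGame
import Pool.Agent.Helper70.Frac

set_option autoImplicit false

namespace Pool.Agent.Helper70

open Finset

section Mono

variable {V : Type} [Fintype V]

open Classical in
/-- the monochromatic edges of `G` under `c` -/
noncomputable def monoE (G : SimpleGraph V) {k : ℕ} (c : V → Fin k) : Finset (Sym2 V) :=
  G.edgeFinset.filter fun e => (e.map c).IsDiag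

open Classical in
/-- those inside `X` -/
noncomputable def monoX (G : SimpleGraph V) {k : ℕ} (X : Finset V) (c : V → Fin k) : Finset (Sym2 V) :=
  (monoE G c).filter fun e => ∀ w ∈ e, w ∈ X

lemma mk_mem_monoE (G : SimpleGraph V) {k : ℕ} (c : V → Fin k) (u v : V) :
    s(u, v) ∈ monoE G c ↔ G.Adj u v ∧ c u = c v := by
  classical
  simp [monoE, SimpleGraph.mem_edgeFinset]

lemma mk_mem_monoX (G : SimpleGraph V) {k : ℕ} (X : Finset V) (c : V → Fin k) (u v : V) :
    s(u, v) ∈ monoX G X c ↔ (G.Adj u v ∧ c u = c v) ∧ u ∈ X ∧ v ∈ X := by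
  classical
  rw [monoX, Finset.mem_filter, mk_mem_monoE]
  simp

lemma monoE_subset (G : SimpleGraph V) [DecidableRel G.Adj] {k : ℕ} (c : V → Fin k) :
    monoE G c ⊆ G.edgeFinset := by
  intro e he
  unfold monoE at he
  have := (Finset.mem_filter.1 he).1
  have h2 : e ∈ G.edgeSet := by simpa using this
  simpa using h2

lemma monoX_congr (G : SimpleGraph V) {k : ℕ} (X : Finset V) (c c' : V → Fin k)
    (h : ∀ v ∈ X, c v = c' v) : monoX G X c = monoX G X c' := by
  ext e
  induction e using Sym2.ind with
  | _ u v =>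
    rw [mk_mem_monoX, mk_mem_monoX]
    constructor
    · rintro ⟨⟨h1, h2⟩, h3, h4⟩
      exact ⟨⟨h1, by rw [← h u h3, ← h v h4, h2]⟩, h3, h4⟩
    · rintro ⟨⟨h1, h2⟩, h3, h4⟩
      exact ⟨⟨h1, by rw [h u h3, h v h4, h2]⟩, h3, h4⟩

open Classical in
/-- exponential moment of the number of monochromatic edges inside a set of vertices -/
lemma exp_moment (G : SimpleGraph V) {k : ℕ} {q : ℝ} (hq : 0 < q)
    (x : (V → Fin k) → ℝ) (hx0 : ∀ c, 0 ≤ x c)
    (hsp : ∀ W : Finset (Sym2 V), ∑ c with W ⊆ monoE G c, x c ≤ (q⁻¹) ^ W.card) (X : Finset V) :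
    ∑ c, x c * q ^ (monoX G X c).card ≤ (k : ℝ) ^ X.card := by
  rw [← Finset.sum_fiberwise (s := Finset.univ) (g := fun (c : V → Fin k) (v : X) => c v)]
  calc ∑ τ : X → Fin k, ∑ c with (fun v : X => c v) = τ, x c * q ^ (monoX G X c).card
      ≤ ∑ τ : X → Fin k, (1 : ℝ) := by
        refine Finset.sum_le_sum fun τ _ => ?_
        by_cases hne : (Finset.univ.filter fun c : V → Fin k => (fun v : X => c v) = τ).Nonempty
        · obtain ⟨c0, hc0⟩ := hne
          have hc0' : (fun v : X => c0 v) = τ := (Finset.mem_filter.1 hc0).2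
          have hsame : ∀ c ∈ (Finset.univ.filter fun c : V → Fin k => (fun v : X => c v) = τ),
              monoX G X c = monoX G X c0 := by
            intro c hc
            have hc' := (Finset.mem_filter.1 hc).2
            refine monoX_congr G X c c0 fun v hv => ?_
            have h1 := congrFun hc' ⟨v, hv⟩
            have h2 := congrFun hc0' ⟨v, hv⟩
            exact h1.trans h2.symm
          calc ∑ c with (fun v : X => c v) = τ, x c * q ^ (monoX G X c).card
              = ∑ c with (fun v : X => c v) = τ, x c * q ^ (monoX G X c0).card := by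
                refine Finset.sum_congr rfl fun c hc => ?_
                rw [hsame c hc]
            _ = (∑ c with (fun v : X => c v) = τ, x c) * q ^ (monoX G X c0).card := by
                rw [Finset.sum_mul]
            _ ≤ (∑ c with monoX G X c0 ⊆ monoE G c, x c) * q ^ (monoX G X c0).card := by
                apply mul_le_mul_of_nonneg_right _ (pow_nonneg hq.le _)
                apply Finset.sum_le_sum_of_subset_of_nonneg
                · intro c hc
                  rw [Finset.mem_filter]
                  refine ⟨Finset.mem_univ _, ?_⟩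
                  rw [← hsame c hc]
                  exact Finset.filter_subset _ _
                · intro c _ _; exact hx0 c
            _ ≤ (q⁻¹) ^ (monoX G X c0).card * q ^ (monoX G X c0).card := by
                apply mul_le_mul_of_nonneg_right _ (pow_nonneg hq.le _)
                exact hsp _
            _ = 1 := by rw [← mul_pow, inv_mul_cancel₀ hq.ne', one_pow]
        · rw [Finset.not_nonempty_iff_eq_empty] at hne
          rw [hne]
          simp
    _ = (k : ℝ) ^ X.card := by
        simp

open Classical in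
/-- Jensen: the expected number of monochromatic edges inside `X` -/
lemma mean_mono (G : SimpleGraph V) {k : ℕ} (hk : 1 ≤ k) {q : ℝ} (hq : 0 < q) (hlq : 0 < Real.log q)
    (x : (V → Fin k) → ℝ) (hx0 : ∀ c, 0 ≤ x c) (hx1 : ∑ c, x c = 1)
    (X : Finset V) (hmom : ∑ c, x c * q ^ (monoX G X c).card ≤ (k : ℝ) ^ X.card) :
    ∑ c, x c * ((monoX G X c).card : ℝ) ≤ Real.log k / Real.log q * X.card := by
  have hk0 : (0 : ℝ) < k := by exact_mod_cast hk
  have hjen := convexOn_exp.map_sum_le (t := Finset.univ) (w := x)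
    (p := fun c => ((monoX G X c).card : ℝ) * Real.log q) (fun c _ => hx0 c) hx1
    (fun c _ => Set.mem_univ _)
  simp only [smul_eq_mul] at hjen
  have hexp : ∀ c : V → Fin k, Real.exp (((monoX G X c).card : ℝ) * Real.log q) = q ^ (monoX G X c).card := by
    intro c
    rw [← Real.log_pow, Real.exp_log (pow_pos hq _)]
  simp only [hexp] at hjen
  have h1 := hjen.trans hmom
  have h2 : ∑ c, x c * (((monoX G X c).card : ℝ) * Real.log q) ≤ Real.log ((k : ℝ) ^ X.card) := by
    rwa [Real.le_log_iff_exp_le (pow_pos hk0 _)]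
  rw [Real.log_pow] at h2
  have h3 : ∑ c, x c * (((monoX G X c).card : ℝ) * Real.log q)
      = (∑ c, x c * ((monoX G X c).card : ℝ)) * Real.log q := by
    rw [Finset.sum_mul]
    refine Finset.sum_congr rfl fun c _ => by ring
  rw [h3] at h2
  rw [div_mul_eq_mul_div, le_div_iff₀ hlq]
  linarith

open Classical in
/-- twice the number of edges bounds the number of ordered pairs -/
lemma pairs_le (G : SimpleGraph V) {k : ℕ} (X : Finset V) (c : V → Fin k) :
    ((X ×ˢ X).filter fun p => G.Adj p.1 p.2 ∧ c p.1 = c p.2).card ≤ 2 * (monoX G X c).card := by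
  set P := (X ×ˢ X).filter fun p : V × V => G.Adj p.1 p.2 ∧ c p.1 = c p.2 with hP
  have h1 : P.card ≤ 2 * (P.image fun p => s(p.1, p.2)).card := by
    apply Finset.card_le_mul_card_image
    intro e he
    obtain ⟨⟨u, v⟩, _, rfl⟩ := Finset.mem_image.1 he
    have : (P.filter fun p => s(p.1, p.2) = s(u, v)) ⊆ {(u, v), (v, u)} := by
      rintro ⟨a, b⟩ hab
      have := (Finset.mem_filter.1 hab).2
      simp only [Sym2.eq_iff] at this
      simp only [Finset.mem_insert, Finset.mem_singleton, Prod.mk.injEq]
      exact this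
    exact (Finset.card_le_card this).trans Finset.card_le_two
  refine h1.trans (Nat.mul_le_mul_left 2 (Finset.card_le_card ?_))
  intro e he
  obtain ⟨⟨u, v⟩, huv, rfl⟩ := Finset.mem_image.1 he
  rw [hP, Finset.mem_filter, Finset.mem_product] at huv
  rw [mk_mem_monoX]
  exact ⟨huv.2, huv.1⟩

open Classical in
/-- the probability that the edge `uv` is monochromatic (zero for non-edges) -/
noncomputable def ymono (G : SimpleGraph V) {k : ℕ} (x : (V → Fin k) → ℝ) (u v : V) : ℝ :=
  if G.Adj u v then ∑ c with c u = c v, x c else 0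

lemma ymono_nonneg (G : SimpleGraph V) {k : ℕ} (x : (V → Fin k) → ℝ) (hx0 : ∀ c, 0 ≤ x c)
    (u v : V) : 0 ≤ ymono G x u v := by
  unfold ymono
  split_ifs
  · exact Finset.sum_nonneg fun c _ => hx0 c
  · exact le_refl 0

open Classical in
lemma sum_ymono_le (G : SimpleGraph V) {k : ℕ} (x : (V → Fin k) → ℝ) (hx0 : ∀ c, 0 ≤ x c)
    (X : Finset V) :
    ∑ v ∈ X, ∑ u ∈ X, ymono G x u v ≤ 2 * ∑ c, x c * ((monoX G X c).card : ℝ) := by
  have h1 : ∀ u v, ymono G x u v = ∑ c, if (G.Adj u v ∧ c u = c v) then x c else 0 := by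
    intro u v
    unfold ymono
    split_ifs with h
    · rw [Finset.sum_filter]
      refine Finset.sum_congr rfl fun c _ => by simp [h]
    · simp [h]
  calc ∑ v ∈ X, ∑ u ∈ X, ymono G x u v
      = ∑ v ∈ X, ∑ u ∈ X, ∑ c, if (G.Adj u v ∧ c u = c v) then x c else 0 := by
        refine Finset.sum_congr rfl fun v _ => Finset.sum_congr rfl fun u _ => h1 u v
    _ = ∑ c, ∑ u ∈ X, ∑ v ∈ X, if (G.Adj u v ∧ c u = c v) then x c else 0 := by
        rw [Finset.sum_comm]
        have : ∀ u, ∑ v ∈ X, ∑ c, (if (G.Adj u v ∧ c u = c v) then x c else 0)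
            = ∑ c, ∑ v ∈ X, if (G.Adj u v ∧ c u = c v) then x c else 0 := fun u => Finset.sum_comm
        simp only [this]
        rw [Finset.sum_comm]
    _ = ∑ c, x c * (((X ×ˢ X).filter fun p => G.Adj p.1 p.2 ∧ c p.1 = c p.2).card : ℝ) := by
        refine Finset.sum_congr rfl fun c _ => ?_
        rw [← Finset.sum_product', ← Finset.sum_filter, Finset.sum_const, nsmul_eq_mul, mul_comm]
    _ ≤ ∑ c, x c * (2 * ((monoX G X c).card : ℝ)) := by
        refine Finset.sum_le_sum fun c _ => mul_le_mul_of_nonneg_left ?_ (hx0 c)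
        have := pairs_le G X c
        exact_mod_cast this
    _ = 2 * ∑ c, x c * ((monoX G X c).card : ℝ) := by
        rw [Finset.mul_sum]
        refine Finset.sum_congr rfl fun c _ => by ring

end Mono

section Grouping

/-- putting light objects into `N` bins of load at most `2 η` -/
lemma exists_bins {V : Type} [DecidableEq V] (y : V → ℝ) (hy : ∀ u, 0 ≤ y u) {η : ℝ}
    (N : ℕ) (L : Finset V) (hL : ∀ u ∈ L, y u ≤ η) (hsum : ∑ u ∈ L, y u < N * η) :
    ∃ κ : V → ℕ, (∀ u ∈ L, κ u < N) ∧ ∀ i, ∑ u ∈ L with κ u = i, y u ≤ 2 * η := by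
  have hη : 0 ≤ η := by
    by_contra hneg
    push Not at hneg
    have h0 : 0 ≤ ∑ u ∈ L, y u := Finset.sum_nonneg fun u _ => hy u
    have : (N : ℝ) * η ≤ 0 := mul_nonpos_of_nonneg_of_nonpos (Nat.cast_nonneg N) hneg.le
    linarith
  induction L using Finset.induction_on with
  | empty => exact ⟨fun _ => 0, by simp, by intro i; simp; linarith⟩
  | insert a L ha ih =>
    have hsum' : ∑ u ∈ L, y u < N * η := by
      rw [Finset.sum_insert ha] at hsum
      linarith [hy a]
    obtain ⟨κ, hκ1, hκ2⟩ := ih (fun u hu => hL u (Finset.mem_insert_of_mem hu)) hsum'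
    obtain ⟨i, hiN, hi⟩ : ∃ i, i < N ∧ ∑ u ∈ L with κ u = i, y u ≤ η := by
      by_contra hcon
      push Not at hcon
      have h1 : ∑ i ∈ Finset.range N, η ≤ ∑ i ∈ Finset.range N, ∑ u ∈ L with κ u = i, y u :=
        Finset.sum_le_sum fun i hi => (hcon i (Finset.mem_range.1 hi)).le
      rw [Finset.sum_fiberwise_of_maps_to (fun u hu => Finset.mem_range.2 (hκ1 u hu))] at h1
      simp only [Finset.sum_const, Finset.card_range, nsmul_eq_mul] at h1
      linarith
    refine ⟨fun u => if u = a then i else κ u, ?_, ?_⟩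
    · intro u hu
      by_cases h : u = a
      · simp [h, hiN]
      · simp only [if_neg h]
        exact hκ1 u ((Finset.mem_insert.1 hu).resolve_left h)
    · intro j
      have hsame : ∑ u ∈ L with (if u = a then i else κ u) = j, y u = ∑ u ∈ L with κ u = j, y u := by
        refine Finset.sum_congr ?_ fun _ _ => rfl
        apply Finset.filter_congr
        intro u hu
        have : u ≠ a := fun h => ha (h ▸ hu)
        simp [this]
      by_cases hj : i = j
      · subst hj
        rw [Finset.filter_insert]
        simp only [if_true]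
        rw [Finset.sum_insert (by simp [ha]), hsame]
        have := hL a (Finset.mem_insert_self _ _)
        linarith
      · rw [Finset.filter_insert]
        simp only [if_true, if_neg hj]
        rw [hsame]
        exact hκ2 j

/-- heavy objects get distinct bins `< N`, light objects are grouped in the bins `N, …, 2N - 1` -/
lemma exists_groups {V : Type} [DecidableEq V] (y : V → ℝ) (hy : ∀ u, 0 ≤ y u) {η : ℝ} (hη : 0 < η)
    (N : ℕ) (S : Finset V) (hsum : ∑ u ∈ S, y u < N * η) :
    ∃ κ : V → ℕ, (∀ u ∈ S, κ u < 2 * N) ∧ (∀ i < N, (S.filter fun u => κ u = i).card ≤ 1) ∧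
      ∀ i, N ≤ i → ∑ u ∈ S with κ u = i, y u ≤ 2 * η := by
  classical
  set Hv := S.filter fun u => η < y u with hHv
  set L := S.filter fun u => ¬ η < y u with hL
  have hcard : Hv.card < N := by
    by_contra hcon
    push Not at hcon
    have h1 : (N : ℝ) * η ≤ Hv.card * η := by
      apply mul_le_mul_of_nonneg_right _ hη.le
      exact_mod_cast hcon
    have h2 : (Hv.card : ℝ) * η ≤ ∑ u ∈ Hv, y u := by
      rw [← nsmul_eq_mul, ← Finset.sum_const]
      exact Finset.sum_le_sum fun u hu => (Finset.mem_filter.1 hu).2.le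
    have h3 : ∑ u ∈ Hv, y u ≤ ∑ u ∈ S, y u :=
      Finset.sum_le_sum_of_subset_of_nonneg (Finset.filter_subset _ _) fun _ _ _ => hy _
    linarith
  obtain ⟨κL, hκ1, hκ2⟩ := exists_bins y hy N L
    (fun u hu => not_lt.1 (Finset.mem_filter.1 hu).2)
    (lt_of_le_of_lt (Finset.sum_le_sum_of_subset_of_nonneg (Finset.filter_subset _ _)
      fun _ _ _ => hy _) hsum)
  -- an injection of the heavy objects into `ℕ`
  let f : V → ℕ := fun u => if h : u ∈ Hv then (Hv.equivFin ⟨u, h⟩ : ℕ) else 0
  have hf1 : ∀ u ∈ Hv, f u < N := by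
    intro u hu
    simp only [f, dif_pos hu]
    exact (Fin.is_lt _).trans hcard
  have hf2 : ∀ u ∈ Hv, ∀ v ∈ Hv, f u = f v → u = v := by
    intro u hu v hv huv
    simp only [f, dif_pos hu, dif_pos hv] at huv
    have := Hv.equivFin.injective (Fin.ext huv)
    simpa using this
  refine ⟨fun u => if u ∈ Hv then f u else N + κL u, ?_, ?_, ?_⟩
  · intro u hu
    by_cases h : u ∈ Hv
    · simp only [if_pos h]
      have := hf1 u h
      omega
    · simp only [if_neg h]
      have huL : u ∈ L := by
        rw [hL, Finset.mem_filter]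
        refine ⟨hu, fun h' => h ?_⟩
        rw [hHv, Finset.mem_filter]
        exact ⟨hu, h'⟩
      have := hκ1 u huL
      omega
  · intro i hi
    rw [Finset.card_le_one]
    intro u hu v hv
    rw [Finset.mem_filter] at hu hv
    beta_reduce at hu hv
    have hu1 : u ∈ Hv := by
      by_contra h
      have := hu.2
      rw [if_neg h] at this
      omega
    have hv1 : v ∈ Hv := by
      by_contra h
      have := hv.2
      rw [if_neg h] at this
      omega
    have h1 := hu.2
    have h2 := hv.2
    rw [if_pos hu1] at h1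
    rw [if_pos hv1] at h2
    exact hf2 u hu1 v hv1 (h1.trans h2.symm)
  · intro i hi
    refine le_trans ?_ (hκ2 (i - N))
    apply Finset.sum_le_sum_of_subset_of_nonneg
    · intro u hu
      rw [Finset.mem_filter] at hu
      beta_reduce at hu
      by_cases h : u ∈ Hv
      · have h1 := hu.2
        rw [if_pos h] at h1
        have := hf1 u h
        omega
      · have h1 := hu.2
        rw [if_neg h] at h1
        rw [Finset.mem_filter]
        refine ⟨?_, by omega⟩
        rw [hL, Finset.mem_filter]
        refine ⟨hu.1, fun h' => h ?_⟩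
        rw [hHv, Finset.mem_filter]
        exact ⟨hu.1, h'⟩
    · intro u _ _
      exact hy u

end Grouping

end Pool.Agent.Helper70
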