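import Mathlib
import Pool.Agent.Helper70.Minimax
import Pool.Agent.Helper70.BiasedGame
import Pool.Agent.Helper70.GameDefs
import Pool.Agent.Helper70.GraphGame
import Pool.Agent.Helper70.Frac
import Pool.Agent.Helper70.Moments

set_option autoImplicit false

namespace Pool.Agent.Helper70

open Finset

section Near

variable {V : Type} [Fintype V]

open Classical in
lemma nearlyColorable_of_family (H : SimpleGraph V) {k : ℕ} {ε : ℝ} {Om : Type*} [Fintype Om]
    (x : Om → ℝ) (hx0 : ∀ ω, 0 ≤ x ω) (hx1 : ∑ ω, x ω = 1) (S : Om → Finset V)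
    (hS : ∀ ω, (H.induce (S ω : Set V)).Colorable k)
    (hcov : ∀ v, 1 - ε ≤ ∑ ω with v ∈ S ω, x ω) : NearlyColorable H k ε := by
  refine ⟨fun T => ∑ ω with S ω = T, x ω, ?_, ?_, ?_, ?_⟩
  · intro T
    exact Finset.sum_nonneg fun ω _ => hx0 ω
  · rw [Finset.sum_fiberwise, hx1]
  · intro T hT
    by_contra hcon
    apply hT
    have : (Finset.univ.filter fun ω => S ω = T) = ∅ := by
      rw [Finset.filter_eq_empty_iff]
      rintro ω _ rfl
      exact hcon (hS ω)
    beta_reduce
    rw [this]
    simp
  · intro v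
    refine (hcov v).trans (le_of_eq ?_)
    rw [← Finset.sum_fiberwise_of_maps_to
      (s := Finset.univ.filter fun ω => v ∈ S ω) (t := Finset.univ.filter fun T : Finset V => v ∈ T)
      (g := S) (by intro ω hω; simpa using hω)]
    refine Finset.sum_congr (by congr) fun T hT => ?_
    refine Finset.sum_congr ?_ fun _ _ => rfl
    ext ω
    simp only [Finset.mem_filter, Finset.mem_univ, true_and] at hT ⊢
    constructor
    · rintro ⟨_, h⟩; exact h
    · rintro rfl; exact ⟨hT, rfl⟩

lemma nearlyColorable_of_colorable (H : SimpleGraph V) {k : ℕ} {ε : ℝ} (hε : 0 ≤ ε)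
    (h : H.Colorable k) : NearlyColorable H k ε := by
  classical
  refine nearlyColorable_of_family H (Om := Unit) (fun _ => 1) (fun _ => zero_le_one) (by simp)
    (fun _ => Finset.univ) ?_ ?_
  · intro _
    exact h.of_hom (SimpleGraph.Embedding.induce _).toHom
  · intro v
    simp
    exact hε

end Near

/-- Maker's target: the graph formed by her edges has chromatic number at least `r`. -/
def chiGoal {V : Type} (r : ℕ) (M : Set (Sym2 V)) : Prop :=
  (r : ℕ∞) ≤ (SimpleGraph.fromEdgeSet M).chromaticNumber

lemma chiGoal_mono {V : Type} (r : ℕ) (M M' : Set (Sym2 V)) (h : M ⊆ M') (hM : chiGoal r M) :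
    chiGoal r M' :=
  le_trans hM (SimpleGraph.chromaticNumber_mono _ (SimpleGraph.fromEdgeSet_mono h))

lemma chiGoal_of_hits {V : Type} [Fintype V] (G : SimpleGraph V) (k : ℕ) (M : Finset (Sym2 V))
    [DecidableRel G.Adj]
    (hM : M ⊆ G.edgeFinset) (h : ∀ c : V → Fin k, ¬ Disjoint (monoE G c) M) :
    chiGoal (k + 1) (M : Set (Sym2 V)) := by
  classical
  unfold chiGoal
  by_contra hcon
  push Not at hcon
  have h1 : (SimpleGraph.fromEdgeSet (M : Set (Sym2 V))).chromaticNumber ≤ (k : ℕ∞) := by
    have : (SimpleGraph.fromEdgeSet (M : Set (Sym2 V))).chromaticNumber < ((k : ℕ∞) + 1) := by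
      exact_mod_cast hcon
    exact Order.le_of_lt_add_one this
  rw [SimpleGraph.chromaticNumber_le_iff_colorable] at h1
  obtain ⟨C⟩ := h1
  apply h C
  rw [Finset.disjoint_left]
  intro e he heM
  induction e using Sym2.ind with
  | _ u v =>
    rw [mk_mem_monoE] at he
    have hadj : (SimpleGraph.fromEdgeSet (M : Set (Sym2 V))).Adj u v := by
      rw [SimpleGraph.fromEdgeSet_adj]
      exact ⟨by simpa using heM, he.1.ne⟩
    exact C.valid hadj he.2

open Classical in
/-- If Maker does not win, there is a random `k`-colouring for which any given set of edges is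
monochromatic with probability at most `2 ^ (- |W| / b)`. -/
theorem exists_spread_coloring {V : Type} [Fintype V] (G : SimpleGraph V) {b k : ℕ} (hb : 1 ≤ b)
    (hlose : ¬ MakerWins G b (chiGoal (k + 1)) ∅ ∅) :
    ∃ x : (V → Fin k) → ℝ, (∀ c, 0 ≤ x c) ∧ ∑ c, x c = 1 ∧
      ∀ W : Finset (Sym2 V), ∑ c with W ⊆ monoE G c, x c ≤ ((qq b)⁻¹) ^ W.card := by
  refine exists_spread (E := G.edgeFinset) hb (qq_pos b) (fun k hk => qq_pow_le hb k hk)
    (fun c => monoE G c) (fun c => monoE_subset G c) ?_
  intro hw
  apply hlose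
  have := makerWins_of_wins G b (goal := chiGoal (k + 1)) (fun M hM hg => chiGoal_of_hits G k M hM hg) hw
  simpa using this

open Classical in
/-- **Structure of the graphs on which Maker does not win.** -/
theorem structure_core {b k : ℕ} (hb : 1 ≤ b) (hk : 2 ≤ k) {ε : ℝ} (hε : 0 < ε)
    {V : Type} [Fintype V] (G : SimpleGraph V)
    (hlose : ¬ MakerWins G b (chiGoal (k + 1)) ∅ ∅) :
    ∃ H : Fin (2 * ⌊4 * b * Real.logb 2 k / ε⌋₊ + 2) → SimpleGraph V,
      (⨆ j, H j) = G ∧ ∀ j, ¬ MakerWins (H j) b (chiGoal (k + 1)) ∅ ∅ ∧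
        NearlyColorable (H j) k ε := by
  obtain ⟨x, hx0, hx1, hsp⟩ := exists_spread_coloring G (k := k) hb hlose
  have hb0 : (0 : ℝ) < b := by exact_mod_cast hb
  have hk1 : 1 ≤ k := by omega
  have hlog2 : 0 < Real.log 2 := Real.log_pos (by norm_num)
  have hlq : 0 < Real.log (qq b) := by rw [log_qq]; positivity
  set β : ℝ := b * Real.logb 2 k with hβ
  have hβ' : Real.log k / Real.log (qq b) = β := by
    rw [log_qq, hβ, Real.logb]
    field_simp
  -- the weights
  have hweights : ∀ X : Finset V, ∑ v ∈ X, ∑ u ∈ X, ymono G x u v ≤ 2 * ∑ v ∈ X, β := by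
    intro X
    refine (sum_ymono_le G x hx0 X).trans ?_
    have h1 := mean_mono G hk1 (qq_pos b) hlq x hx0 hx1 X
      (exp_moment G (qq_pos b) x hx0 hsp X)
    rw [hβ'] at h1
    rw [Finset.sum_const, nsmul_eq_mul]
    linarith
  obtain ⟨ρ, hρ, hback⟩ := exists_rank (ymono G x) (ymono_nonneg G x hx0) (fun _ => β) hweights
  -- grouping
  set N : ℕ := ⌊4 * b * Real.logb 2 k / ε⌋₊ + 1 with hN
  have hNβ : 2 * β < N * (ε / 2) := by
    have h1 : 4 * b * Real.logb 2 k / ε < N := by
      rw [hN]; push_cast
      exact Nat.lt_floor_add_one _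
    rw [div_lt_iff₀ hε] at h1
    have : 4 * (b : ℝ) * Real.logb 2 k = 4 * β := by rw [hβ]; ring
    rw [this] at h1
    linarith
  have hgroup : ∀ v : V, ∃ κ : V → ℕ,
      (∀ u ∈ (Finset.univ.filter fun u => G.Adj u v ∧ ρ u < ρ v), κ u < 2 * N) ∧
      (∀ i < N, ((Finset.univ.filter fun u => G.Adj u v ∧ ρ u < ρ v).filter fun u => κ u = i).card ≤ 1) ∧
      ∀ i, N ≤ i → ∑ u ∈ (Finset.univ.filter fun u => G.Adj u v ∧ ρ u < ρ v) with κ u = i,
        ymono G x u v ≤ 2 * (ε / 2) := by
    intro v
    apply exists_groups (fun u => ymono G x u v) (fun u => ymono_nonneg G x hx0 u v) (by positivity)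
    refine lt_of_le_of_lt ?_ hNβ
    refine le_trans ?_ (hback v)
    apply Finset.sum_le_sum_of_subset_of_nonneg
    · intro u hu
      simp only [Finset.mem_filter, Finset.mem_univ, true_and] at hu ⊢
      exact hu.2
    · intro u _ _; exact ymono_nonneg G x hx0 u v
  choose κ hκ1 hκ2 hκ3 using hgroup
  have hJ : 2 * ⌊4 * b * Real.logb 2 k / ε⌋₊ + 2 = 2 * N := by rw [hN]; ring
  rw [hJ]
  -- the subgraphs
  let H : Fin (2 * N) → SimpleGraph V := fun j =>
    { Adj := fun u v => G.Adj u v ∧ ((ρ u < ρ v ∧ κ v u = j) ∨ (ρ v < ρ u ∧ κ u v = j))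
      symm := ⟨fun u v h => ⟨h.1.symm, h.2.symm⟩⟩
      loopless := ⟨fun v h => h.1.ne rfl⟩ }
  have hHG : ∀ j, H j ≤ G := fun j u v h => h.1
  refine ⟨H, ?_, ?_⟩
  · apply le_antisymm
    · exact iSup_le hHG
    · intro u v huv
      rw [SimpleGraph.iSup_adj]
      have hne : ρ u ≠ ρ v := fun h => huv.ne (hρ h)
      rcases lt_or_gt_of_ne hne with h | h
      · have h1 := hκ1 v u (by simp [huv, h])
        exact ⟨⟨κ v u, h1⟩, huv, Or.inl ⟨h, rfl⟩⟩
      · have h1 := hκ1 u v (by simp [huv.symm, h])
        exact ⟨⟨κ u v, h1⟩, huv, Or.inr ⟨h, rfl⟩⟩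
  · intro j
    refine ⟨fun hw => hlose (makerWins_mono (hHG j) (chiGoal_mono (k + 1)) hw), ?_⟩
    by_cases hj : (j : ℕ) < N
    · -- heavy classes are forests
      apply nearlyColorable_of_colorable _ hε.le
      have : (H j).Colorable (1 + 1) := by
        apply colorable_of_rank (H j) ρ hρ 1
        intro v
        refine le_trans (Finset.card_le_card ?_) (hκ2 v j hj)
        intro u hu
        simp only [Finset.mem_filter, Finset.mem_univ, true_and] at hu ⊢
        obtain ⟨⟨h1, h2⟩, h3⟩ := hu
        refine ⟨⟨h1, h3⟩, ?_⟩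
        rcases h2 with h2 | h2
        · exact h2.2
        · exact absurd h2.1 (by omega)
      exact this.mono (by omega)
    · push Not at hj
      -- light classes
      refine nearlyColorable_of_family (H j) x hx0 hx1
        (fun c => Finset.univ.filter fun v => ∀ u, (H j).Adj u v → ρ u < ρ v → c u ≠ c v) ?_ ?_
      · intro c
        refine ⟨SimpleGraph.Coloring.mk (fun v => c v.1) ?_⟩
        rintro ⟨u, hu⟩ ⟨v, hv⟩ huv
        simp only [Finset.coe_filter, Finset.mem_univ, true_and, Set.mem_setOf_eq] at hu hv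
        simp only [SimpleGraph.comap_adj, Function.Embedding.subtype_apply] at huv
        have hadj : (H j).Adj u v := huv
        have hne : ρ u ≠ ρ v := fun h => hadj.ne (hρ h)
        rcases lt_or_gt_of_ne hne with h | h
        · exact hv u hadj h
        · exact (hu v hadj.symm h).symm
      · intro v
        -- the bad event
        have htot : ∑ c with v ∈ (Finset.univ.filter fun v => ∀ u, (H j).Adj u v → ρ u < ρ v → c u ≠ c v), x c
            = 1 - ∑ c with ¬ (∀ u, (H j).Adj u v → ρ u < ρ v → c u ≠ c v), x c := by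
          rw [← hx1, ← Finset.sum_filter_add_sum_filter_not Finset.univ
            (fun c : V → Fin k => ∀ u, (H j).Adj u v → ρ u < ρ v → c u ≠ c v) x]
          simp
        rw [htot]
        have hbad : ∑ c with ¬ (∀ u, (H j).Adj u v → ρ u < ρ v → c u ≠ c v), x c
            ≤ ∑ u ∈ (Finset.univ.filter fun u => G.Adj u v ∧ ρ u < ρ v) with κ v u = j,
                ymono G x u v := by
          have h1 : ∀ c : V → Fin k, (if ¬ (∀ u, (H j).Adj u v → ρ u < ρ v → c u ≠ c v) then x c else 0)
              ≤ ∑ u ∈ (Finset.univ.filter fun u => G.Adj u v ∧ ρ u < ρ v) with κ v u = j,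
                  if c u = c v then x c else 0 := by
            intro c
            split_ifs with h
            · apply Finset.sum_nonneg
              intro u _
              split_ifs
              · exact hx0 c
              · exact le_refl 0
            · push Not at h
              obtain ⟨u, hu1, hu2, hu3⟩ := h
              have humem : u ∈ (Finset.univ.filter fun u => G.Adj u v ∧ ρ u < ρ v).filter
                  (fun u => κ v u = j) := by
                simp only [Finset.mem_filter, Finset.mem_univ, true_and]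
                refine ⟨⟨hu1.1, hu2⟩, ?_⟩
                rcases hu1.2 with h2 | h2
                · exact h2.2
                · exact absurd h2.1 (by omega)
              refine le_trans ?_ (Finset.single_le_sum (f := fun u => if c u = c v then x c else 0)
                (fun u _ => by split_ifs <;> [exact hx0 c; exact le_refl 0]) humem)
              simp [hu3]
          rw [Finset.sum_filter]
          refine (Finset.sum_le_sum fun c _ => h1 c).trans (le_of_eq ?_)
          rw [Finset.sum_comm]
          refine Finset.sum_congr rfl fun u hu => ?_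
          have hadj : G.Adj u v := by
            simp only [Finset.mem_filter, Finset.mem_univ, true_and] at hu
            exact hu.1.1
          unfold ymono
          rw [if_pos hadj, Finset.sum_filter]
        have := hκ3 v j hj
        linarith [hbad.trans this]

end Pool.Agent.Helper70
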