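import Mathlib
import Pool.Agent.Helper70.Minimax
import Pool.Agent.Helper70.BiasedGame
import Pool.Agent.Helper70.GameDefs
import Pool.Agent.Helper70.GraphGame
import Pool.Agent.Helper70.Frac

set_option autoImplicit false

namespace Pool.Agent.Helper70

open Finset

section Ind

variable {V : Type} [Fintype V]

open Classical in
/-- the edges of `G` inside `S` -/
noncomputable def indE (G : SimpleGraph V) (S : Finset V) : Finset (Sym2 V) :=
  G.edgeFinset.filter fun e => ∀ w ∈ e, w ∈ S

lemma mk_mem_indE (G : SimpleGraph V) (S : Finset V) (u v : V) :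
    s(u, v) ∈ indE G S ↔ G.Adj u v ∧ u ∈ S ∧ v ∈ S := by
  classical
  simp [indE, SimpleGraph.mem_edgeFinset]

lemma indE_subset (G : SimpleGraph V) [DecidableRel G.Adj] (S : Finset V) :
    indE G S ⊆ G.edgeFinset := by
  classical
  intro e he
  unfold indE at he
  have := (Finset.mem_filter.1 he).1
  have h2 : e ∈ G.edgeSet := by simpa using this
  simpa using h2

lemma indE_mono (G : SimpleGraph V) {S T : Finset V} (h : S ⊆ T) : indE G S ⊆ indE G T := by
  intro e he
  induction e using Sym2.ind with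
  | _ u v =>
    rw [mk_mem_indE] at he ⊢
    exact ⟨he.1, h he.2.1, h he.2.2⟩

variable {Om : Type*} [Fintype Om]

open Classical in
lemma ind_moment (G : SimpleGraph V) {q a : ℝ} (hq : 0 < q) (ha : 0 < a) (ha1 : a < 1)
    (x : Om → ℝ) (hx0 : ∀ ω, 0 ≤ x ω) (S : Om → Finset V)
    (hsp : ∀ W : Finset (Sym2 V), ∑ ω with W ⊆ indE G (S ω), x ω ≤ (q⁻¹) ^ W.card) (X : Finset V) :
    ∑ ω, x ω * (q ^ (indE G (S ω ∩ X)).card *
      (a ^ (S ω ∩ X).card * (1 - a) ^ (X.card - (S ω ∩ X).card))) ≤ 1 := by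
  have hmaps : ∀ ω ∈ (Finset.univ : Finset Om), S ω ∩ X ∈ X.powerset := by
    intro ω _
    exact Finset.mem_powerset.2 Finset.inter_subset_right
  rw [← Finset.sum_fiberwise_of_maps_to hmaps]
  calc ∑ τ ∈ X.powerset, ∑ ω with S ω ∩ X = τ, x ω * (q ^ (indE G (S ω ∩ X)).card *
        (a ^ (S ω ∩ X).card * (1 - a) ^ (X.card - (S ω ∩ X).card)))
      ≤ ∑ τ ∈ X.powerset, a ^ τ.card * (1 - a) ^ (X.card - τ.card) := by
        refine Finset.sum_le_sum fun τ _ => ?_
        have hnn : 0 ≤ a ^ τ.card * (1 - a) ^ (X.card - τ.card) :=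
          mul_nonneg (pow_nonneg ha.le _) (pow_nonneg (by linarith) _)
        calc ∑ ω with S ω ∩ X = τ, x ω * (q ^ (indE G (S ω ∩ X)).card *
              (a ^ (S ω ∩ X).card * (1 - a) ^ (X.card - (S ω ∩ X).card)))
            = ∑ ω with S ω ∩ X = τ, x ω * (q ^ (indE G τ).card *
              (a ^ τ.card * (1 - a) ^ (X.card - τ.card))) := by
              refine Finset.sum_congr rfl fun ω hω => ?_
              rw [(Finset.mem_filter.1 hω).2]
          _ = (∑ ω with S ω ∩ X = τ, x ω) * (q ^ (indE G τ).card *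
              (a ^ τ.card * (1 - a) ^ (X.card - τ.card))) := by rw [Finset.sum_mul]
          _ ≤ (∑ ω with indE G τ ⊆ indE G (S ω), x ω) * (q ^ (indE G τ).card *
              (a ^ τ.card * (1 - a) ^ (X.card - τ.card))) := by
              apply mul_le_mul_of_nonneg_right _ (mul_nonneg (pow_nonneg hq.le _) hnn)
              apply Finset.sum_le_sum_of_subset_of_nonneg
              · intro ω hω
                rw [Finset.mem_filter] at hω ⊢
                refine ⟨hω.1, indE_mono G ?_⟩
                rw [← hω.2]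
                exact Finset.inter_subset_left
              · intro ω _ _; exact hx0 ω
          _ ≤ (q⁻¹) ^ (indE G τ).card * (q ^ (indE G τ).card *
              (a ^ τ.card * (1 - a) ^ (X.card - τ.card))) := by
              apply mul_le_mul_of_nonneg_right (hsp _) (mul_nonneg (pow_nonneg hq.le _) hnn)
          _ = a ^ τ.card * (1 - a) ^ (X.card - τ.card) := by
              rw [← mul_assoc, ← mul_pow, inv_mul_cancel₀ hq.ne', one_pow, one_mul]
    _ = 1 := by
        rw [Finset.sum_pow_mul_eq_add_pow]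
        simp

open Classical in
lemma ind_mean (G : SimpleGraph V) {q a : ℝ} (hq : 0 < q) (ha : 0 < a) (ha1 : a < 1)
    (x : Om → ℝ) (hx0 : ∀ ω, 0 ≤ x ω) (hx1 : ∑ ω, x ω = 1) (S : Om → Finset V)
    (X : Finset V)
    (hmom : ∑ ω, x ω * (q ^ (indE G (S ω ∩ X)).card *
      (a ^ (S ω ∩ X).card * (1 - a) ^ (X.card - (S ω ∩ X).card))) ≤ 1) :
    (∑ ω, x ω * ((indE G (S ω ∩ X)).card : ℝ)) * Real.log q
      ≤ ∑ v ∈ X, ((∑ ω with v ∈ S ω, x ω) * (- Real.log a) + (- Real.log (1 - a))) := by
  have h1a : 0 < 1 - a := by linarith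
  have hla : 0 ≤ - Real.log a := by
    rw [neg_nonneg]; exact Real.log_nonpos ha.le ha1.le
  have hl1a : 0 ≤ - Real.log (1 - a) := by
    rw [neg_nonneg]; exact Real.log_nonpos h1a.le (by linarith)
  set f : Om → ℝ := fun ω => ((indE G (S ω ∩ X)).card : ℝ) * Real.log q
    + (((S ω ∩ X).card : ℝ) * Real.log a + ((X.card - (S ω ∩ X).card : ℕ) : ℝ) * Real.log (1 - a)) with hf
  have hjen := convexOn_exp.map_sum_le (t := Finset.univ) (w := x)
    (p := f) (fun c _ => hx0 c) hx1 (fun c _ => Set.mem_univ _)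
  simp only [smul_eq_mul] at hjen
  have hexp : ∀ ω, Real.exp (f ω) = q ^ (indE G (S ω ∩ X)).card *
      (a ^ (S ω ∩ X).card * (1 - a) ^ (X.card - (S ω ∩ X).card)) := by
    intro ω
    simp only [hf]
    rw [Real.exp_add, Real.exp_add, ← Real.log_pow, ← Real.log_pow, ← Real.log_pow,
      Real.exp_log (pow_pos hq _), Real.exp_log (pow_pos ha _), Real.exp_log (pow_pos h1a _)]
  simp only [hexp] at hjen
  have h1 := hjen.trans hmom
  have h2 : ∑ ω, x ω * f ω ≤ 0 := by
    rwa [← Real.exp_le_one_iff]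
  have h3 : ∑ ω, x ω * f ω = (∑ ω, x ω * ((indE G (S ω ∩ X)).card : ℝ)) * Real.log q
      - ∑ ω, x ω * (((S ω ∩ X).card : ℝ) * (- Real.log a)
        + ((X.card - (S ω ∩ X).card : ℕ) : ℝ) * (- Real.log (1 - a))) := by
    rw [Finset.sum_mul, ← Finset.sum_sub_distrib]
    refine Finset.sum_congr rfl fun ω _ => ?_
    simp only [hf]
    ring
  rw [h3] at h2
  have h4 : ∑ ω, x ω * (((S ω ∩ X).card : ℝ) * (- Real.log a)
        + ((X.card - (S ω ∩ X).card : ℕ) : ℝ) * (- Real.log (1 - a)))
      ≤ ∑ ω, x ω * (((S ω ∩ X).card : ℝ) * (- Real.log a) + (X.card : ℝ) * (- Real.log (1 - a))) := by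
    refine Finset.sum_le_sum fun ω _ => mul_le_mul_of_nonneg_left ?_ (hx0 ω)
    gcongr
    exact Nat.sub_le _ _
  have h5 : ∑ ω, x ω * (((S ω ∩ X).card : ℝ) * (- Real.log a) + (X.card : ℝ) * (- Real.log (1 - a)))
      = ∑ v ∈ X, ((∑ ω with v ∈ S ω, x ω) * (- Real.log a) + (- Real.log (1 - a))) := by
    have h6 : ∀ ω, ((S ω ∩ X).card : ℝ) = ∑ v ∈ X, if v ∈ S ω then (1 : ℝ) else 0 := by
      intro ω
      rw [← Finset.sum_filter, Finset.sum_const, nsmul_eq_mul, mul_one]
      congr 2
      ext v; simp [and_comm]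
    rw [Finset.sum_add_distrib, ← Finset.sum_mul, Finset.sum_const, nsmul_eq_mul]
    have h7 : ∑ v ∈ X, ∑ ω with v ∈ S ω, x ω = ∑ ω, x ω * ((S ω ∩ X).card : ℝ) := by
      calc ∑ v ∈ X, ∑ ω with v ∈ S ω, x ω = ∑ v ∈ X, ∑ ω, if v ∈ S ω then x ω else 0 := by
            refine Finset.sum_congr rfl fun v _ => ?_
            rw [Finset.sum_filter]
        _ = ∑ ω, ∑ v ∈ X, if v ∈ S ω then x ω else 0 := Finset.sum_comm
        _ = ∑ ω, x ω * ((S ω ∩ X).card : ℝ) := by
            refine Finset.sum_congr rfl fun ω _ => ?_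
            rw [h6, Finset.mul_sum]
            refine Finset.sum_congr rfl fun v _ => ?_
            split_ifs <;> simp
    rw [h7]
    simp only [mul_add, Finset.sum_add_distrib]
    congr 1
    · rw [Finset.sum_mul]
      refine Finset.sum_congr rfl fun ω _ => by ring
    · rw [← Finset.sum_mul, hx1, one_mul]
  linarith

open Classical in
/-- probability that both ends of the edge `uv` lie in the random set (zero for non-edges) -/
noncomputable def zind (G : SimpleGraph V) (x : Om → ℝ) (S : Om → Finset V) (u v : V) : ℝ :=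
  if G.Adj u v then ∑ ω with u ∈ S ω ∧ v ∈ S ω, x ω else 0

lemma zind_nonneg (G : SimpleGraph V) (x : Om → ℝ) (hx0 : ∀ ω, 0 ≤ x ω) (S : Om → Finset V)
    (u v : V) : 0 ≤ zind G x S u v := by
  unfold zind
  split_ifs
  · exact Finset.sum_nonneg fun c _ => hx0 c
  · exact le_refl 0

open Classical in
lemma ind_pairs_le (G : SimpleGraph V) (T : Finset V) :
    ((T ×ˢ T).filter fun p => G.Adj p.1 p.2).card ≤ 2 * (indE G T).card := by
  set P := (T ×ˢ T).filter fun p : V × V => G.Adj p.1 p.2 with hP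
  have h1 : P.card ≤ 2 * (P.image fun p => s(p.1, p.2)).card := by
    apply Finset.card_le_mul_card_image
    intro e he
    obtain ⟨⟨u, v⟩, _, rfl⟩ := Finset.mem_image.1 he
    have : (P.filter fun p => s(p.1, p.2) = s(u, v)) ⊆ {(u, v), (v, u)} := by
      rintro ⟨a, b⟩ hab
      have := (Finset.mem_filter.1 hab).2
      simp only [Sym2.eq_iff] at this
      simp only [Finset.mem_insert, Finset.mem_singleton, Prod.mk.injEq]
      exact this
    exact (Finset.card_le_card this).trans Finset.card_le_two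
  refine h1.trans (Nat.mul_le_mul_left 2 (Finset.card_le_card ?_))
  intro e he
  obtain ⟨⟨u, v⟩, huv, rfl⟩ := Finset.mem_image.1 he
  rw [hP, Finset.mem_filter, Finset.mem_product] at huv
  rw [mk_mem_indE]
  exact ⟨huv.2, huv.1.1, huv.1.2⟩

open Classical in
lemma sum_zind_le (G : SimpleGraph V) (x : Om → ℝ) (hx0 : ∀ ω, 0 ≤ x ω) (S : Om → Finset V)
    (X : Finset V) :
    ∑ v ∈ X, ∑ u ∈ X, zind G x S u v ≤ 2 * ∑ ω, x ω * ((indE G (S ω ∩ X)).card : ℝ) := by
  have h1 : ∀ u v, zind G x S u v = ∑ ω, if (G.Adj u v ∧ u ∈ S ω ∧ v ∈ S ω) then x ω else 0 := by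
    intro u v
    unfold zind
    split_ifs with h
    · rw [Finset.sum_filter]
      refine Finset.sum_congr rfl fun c _ => by simp [h]
    · simp [h]
  calc ∑ v ∈ X, ∑ u ∈ X, zind G x S u v
      = ∑ v ∈ X, ∑ u ∈ X, ∑ ω, if (G.Adj u v ∧ u ∈ S ω ∧ v ∈ S ω) then x ω else 0 := by
        refine Finset.sum_congr rfl fun v _ => Finset.sum_congr rfl fun u _ => h1 u v
    _ = ∑ ω, ∑ u ∈ X, ∑ v ∈ X, if (G.Adj u v ∧ u ∈ S ω ∧ v ∈ S ω) then x ω else 0 := by
        rw [Finset.sum_comm]
        have : ∀ u, ∑ v ∈ X, ∑ ω, (if (G.Adj u v ∧ u ∈ S ω ∧ v ∈ S ω) then x ω else 0)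
            = ∑ ω, ∑ v ∈ X, if (G.Adj u v ∧ u ∈ S ω ∧ v ∈ S ω) then x ω else 0 :=
          fun u => Finset.sum_comm
        simp only [this]
        rw [Finset.sum_comm]
    _ = ∑ ω, x ω * ((((S ω ∩ X) ×ˢ (S ω ∩ X)).filter fun p => G.Adj p.1 p.2).card : ℝ) := by
        refine Finset.sum_congr rfl fun ω _ => ?_
        rw [← Finset.sum_product', ← Finset.sum_filter, Finset.sum_const, nsmul_eq_mul, mul_comm]
        congr 2
        congr 1
        ext ⟨u, v⟩
        simp only [Finset.mem_filter, Finset.mem_product, Finset.mem_inter]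
        tauto
    _ ≤ ∑ ω, x ω * (2 * ((indE G (S ω ∩ X)).card : ℝ)) := by
        refine Finset.sum_le_sum fun ω _ => mul_le_mul_of_nonneg_left ?_ (hx0 ω)
        have := ind_pairs_le G (S ω ∩ X)
        exact_mod_cast this
    _ = 2 * ∑ ω, x ω * ((indE G (S ω ∩ X)).card : ℝ) := by
        rw [Finset.mul_sum]
        refine Finset.sum_congr rfl fun c _ => by ring

end Ind

/-- Maker's target: the graph formed by her edges has fractional chromatic number more than `r`. -/
def fracGoal {V : Type} [Fintype V] (r : ℕ) (M : Set (Sym2 V)) : Prop :=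
  (r : ℝ) < fracChromatic (SimpleGraph.fromEdgeSet M)

lemma fracGoal_of_hits {V : Type} [Fintype V] (G : SimpleGraph V) [DecidableRel G.Adj]
    {r : ℕ} (hr : 1 ≤ r)
    (y : V → ℝ) (hy0 : ∀ v, 0 ≤ y v) (hy1 : ∑ v, y v = 1) (M : Finset (Sym2 V))
    (h : ∀ S : Finset V, 1 / (r : ℝ) ≤ ∑ v ∈ S, y v → ¬ Disjoint (indE G S) M) :
    fracGoal r (M : Set (Sym2 V)) := by
  classical
  unfold fracGoal
  have hr0 : (0 : ℝ) < r := by exact_mod_cast hr
  set H := SimpleGraph.fromEdgeSet (M : Set (Sym2 V)) with hH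
  obtain ⟨I0, hI0, hmax⟩ := Finset.exists_max_image
    (Finset.univ.filter fun I : Finset V => H.IsIndepSet (I : Set V)) (fun I => ∑ v ∈ I, y v)
    ⟨∅, by simp⟩
  have hind : ∀ I : Finset V, H.IsIndepSet (I : Set V) → ∑ v ∈ I, y v < 1 / r := by
    intro I hI
    by_contra hcon
    push Not at hcon
    apply h I hcon
    rw [Finset.disjoint_left]
    intro e he heM
    induction e using Sym2.ind with
    | _ u v =>
      rw [mk_mem_indE] at he
      apply hI (by simpa using he.2.1) (by simpa using he.2.2) he.1.ne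
      rw [hH, SimpleGraph.fromEdgeSet_adj]
      exact ⟨by simpa using heM, he.1.ne⟩
  have hm1 : ∑ v ∈ I0, y v < 1 / r := hind I0 (by simpa using hI0)
  have hm0 : 0 < ∑ v ∈ I0, y v := by
    obtain ⟨v, hv⟩ : ∃ v, 0 < y v := by
      by_contra hcon
      push Not at hcon
      have : ∑ v, y v ≤ 0 := Finset.sum_nonpos fun v _ => hcon v
      linarith
    have := hmax {v} (by simp)
    simp only [Finset.sum_singleton] at this
    linarith
  have h1 := le_fracChromatic H y hy0 hy1 hm0 (fun I hI => hmax I (by simpa using hI))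
  refine lt_of_lt_of_le ?_ h1
  rw [lt_div_iff₀ hm0]
  rw [lt_div_iff₀ hr0] at hm1
  linarith

open Classical in
/-- **The biased game for the fractional chromatic number.** -/
theorem frac_core {b r : ℕ} (hb : 1 ≤ b) (hr : 1 ≤ r) {V : Type} [Fintype V] (G : SimpleGraph V)
    (hG : 2 * (r : ℝ) * ⌈4 * b * (Real.log (2 * r) + 1) / Real.log 2⌉₊ < fracChromatic G) :
    MakerWins G b (fracGoal r) ∅ ∅ := by
  by_contra hlose
  have hb0 : (0 : ℝ) < b := by exact_mod_cast hb
  have hr0 : (0 : ℝ) < r := by exact_mod_cast hr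
  have hr1 : (1 : ℝ) ≤ r := by exact_mod_cast hr
  have hlog2 : 0 < Real.log 2 := Real.log_pos (by norm_num)
  have hlq : 0 < Real.log (qq b) := by rw [log_qq]; positivity
  have hlog2r : 0 < Real.log (2 * r) := Real.log_pos (by linarith)
  set D : ℕ := ⌈4 * b * (Real.log (2 * r) + 1) / Real.log 2⌉₊ with hD
  have hDpos : 0 < D := by
    rw [hD, Nat.ceil_pos]
    positivity
  have hD0 : (0 : ℝ) < D := by exact_mod_cast hDpos
  have hDle : 4 * b * (Real.log (2 * r) + 1) / Real.log 2 ≤ D := Nat.le_ceil _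
  apply absurd hG
  push Not
  have hpos : (0 : ℝ) < 1 / (2 * r * D) := by positivity
  have hgoal := fracChromatic_le_of_forall_weight G hpos
  refine (hgoal ?_).trans (by simp)
  intro y hy0 hy1
  -- the family of heavy sets
  let Om := {S : Finset V // 1 / (r : ℝ) ≤ ∑ v ∈ S, y v}
  have hnw : ¬ Wins G.edgeFinset b (fun M' => ∀ ω : Om, ¬ Disjoint (indE G ω.1) M') ∅ ∅ := by
    intro hw
    apply hlose
    have := makerWins_of_wins G b (goal := fracGoal r)
      (fun M _ hg => fracGoal_of_hits G hr y hy0 hy1 M (fun S hS => hg ⟨S, hS⟩)) hw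
    simpa using this
  obtain ⟨x, hx0, hx1, hsp⟩ := exists_spread (E := G.edgeFinset) hb (qq_pos b)
    (fun k hk => qq_pow_le hb k hk) (fun ω : Om => indE G ω.1) (fun ω => indE_subset G ω.1) hnw
  set S : Om → Finset V := fun ω => ω.1 with hS
  set s : V → ℝ := fun v => ∑ ω with v ∈ S ω, x ω with hs
  have hs0 : ∀ v, 0 ≤ s v := fun v => Finset.sum_nonneg fun ω _ => hx0 ω
  set a : ℝ := 1 / (2 * r) with ha
  have ha0 : 0 < a := by positivity
  have ha1 : a < 1 := by
    rw [ha, div_lt_one (by positivity)]; linarith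
  have hla : - Real.log a = Real.log (2 * r) := by
    rw [ha, one_div, Real.log_inv, neg_neg]
  have hl1a : - Real.log (1 - a) ≤ 1 / r := by
    have h1a : 0 < 1 - a := by linarith
    have h1 : - Real.log (1 - a) = Real.log (1 / (1 - a)) := by
      rw [one_div, Real.log_inv]
    rw [h1]
    have h2 := Real.log_le_sub_one_of_pos (show 0 < 1 / (1 - a) by positivity)
    refine h2.trans ?_
    have h3 : 1 / (1 - a) - 1 = 1 / (2 * r - 1) := by
      rw [ha]
      have : (2 * (r : ℝ) - 1) ≠ 0 := by linarith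
      have h4 : 1 - 1 / (2 * (r : ℝ)) = (2 * r - 1) / (2 * r) := by
        field_simp
      rw [h4, one_div_div]
      field_simp
      ring
    rw [h3]
    apply one_div_le_one_div_of_le hr0
    linarith
  set L : ℝ := Real.log (2 * r) with hL
  set A : V → ℝ := fun v => (s v * L + 1 / r) / Real.log (qq b) with hA
  have hweights : ∀ X : Finset V, ∑ v ∈ X, ∑ u ∈ X, zind G x S u v ≤ 2 * ∑ v ∈ X, A v := by
    intro X
    refine (sum_zind_le G x hx0 S X).trans ?_
    have h1 := ind_mean G (qq_pos b) ha0 ha1 x hx0 hx1 S X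
      (ind_moment G (qq_pos b) ha0 ha1 x hx0 S hsp X)
    have h2 : ∑ v ∈ X, ((∑ ω with v ∈ S ω, x ω) * (- Real.log a) + (- Real.log (1 - a)))
        ≤ (∑ v ∈ X, A v) * Real.log (qq b) := by
      rw [Finset.sum_mul]
      refine Finset.sum_le_sum fun v _ => ?_
      simp only [hA]
      rw [div_mul_cancel₀ _ hlq.ne', hla]
      simp only [hs]
      linarith
    have h3 := h1.trans h2
    have h4 : ∑ ω, x ω * ((indE G (S ω ∩ X)).card : ℝ) ≤ ∑ v ∈ X, A v :=
      le_of_mul_le_mul_right h3 hlq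
    linarith
  obtain ⟨ρ, hρ, hback⟩ := exists_rank (zind G x S) (zind_nonneg G x hx0 S) A hweights
  -- number of back neighbours inside the random set
  set nb : Om → V → ℕ := fun ω v => (Finset.univ.filter fun u => G.Adj u v ∧ ρ u < ρ v ∧ u ∈ S ω).card
    with hnb
  -- good part
  set S' : Om → Finset V := fun ω => (S ω).filter fun v => nb ω v < D with hS'
  set σ : ℝ := ∑ v, y v * s v with hσ
  have hσ_eq : σ = ∑ ω, x ω * ∑ v ∈ S ω, y v := by
    calc σ = ∑ v, ∑ ω, if v ∈ S ω then x ω * y v else 0 := by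
          rw [hσ]
          refine Finset.sum_congr rfl fun v _ => ?_
          simp only [hs]
          rw [Finset.sum_filter, Finset.mul_sum]
          refine Finset.sum_congr rfl fun ω _ => ?_
          split_ifs
          · ring
          · ring
      _ = ∑ ω, ∑ v, if v ∈ S ω then x ω * y v else 0 := Finset.sum_comm
      _ = ∑ ω, x ω * ∑ v ∈ S ω, y v := by
          refine Finset.sum_congr rfl fun ω _ => ?_
          rw [← Finset.sum_filter, Finset.mul_sum]
          refine Finset.sum_congr ?_ fun _ _ => rfl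
          ext; simp
  have hσr : 1 / r ≤ σ := by
    rw [hσ_eq]
    calc 1 / (r : ℝ) = ∑ ω, x ω * (1 / r) := by rw [← Finset.sum_mul, hx1, one_mul]
      _ ≤ ∑ ω, x ω * ∑ v ∈ S ω, y v :=
        Finset.sum_le_sum fun ω _ => mul_le_mul_of_nonneg_left ω.2 (hx0 ω)
  -- the bad part is small
  have hbad : ∑ ω, x ω * ∑ v ∈ S ω with ¬ nb ω v < D, y v ≤ σ / 2 := by
    have h1 : ∀ ω, ∑ v ∈ S ω with ¬ nb ω v < D, y v
        ≤ ∑ v, y v * (1 / D) * ∑ u, if (G.Adj u v ∧ ρ u < ρ v ∧ u ∈ S ω ∧ v ∈ S ω) then (1 : ℝ) else 0 := by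
      intro ω
      rw [Finset.sum_filter]
      have h2 : ∑ v ∈ S ω, (if ¬ nb ω v < D then y v else 0)
          = ∑ v, if v ∈ S ω ∧ ¬ nb ω v < D then y v else 0 := by
        rw [← Finset.sum_filter, ← Finset.sum_filter]
        refine Finset.sum_congr ?_ fun _ _ => rfl
        ext v; simp
      rw [h2]
      refine Finset.sum_le_sum fun v _ => ?_
      have hnn : 0 ≤ y v * (1 / D) * ∑ u, if (G.Adj u v ∧ ρ u < ρ v ∧ u ∈ S ω ∧ v ∈ S ω) then (1 : ℝ) else 0 := by
        apply mul_nonneg (mul_nonneg (hy0 v) (by positivity))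
        apply Finset.sum_nonneg
        intro u _
        split_ifs <;> norm_num
      split_ifs with h3
      · have h4 : ∑ u, (if (G.Adj u v ∧ ρ u < ρ v ∧ u ∈ S ω ∧ v ∈ S ω) then (1 : ℝ) else 0) = nb ω v := by
          rw [← Finset.sum_filter, Finset.sum_const, nsmul_eq_mul, mul_one]
          simp only [hnb]
          congr 2
          ext u
          simp only [Finset.mem_filter, Finset.mem_univ, true_and]
          have := h3.1
          tauto
        rw [h4]
        have h5 : (D : ℝ) ≤ nb ω v := by exact_mod_cast not_lt.1 h3.2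
        have h6 : (1 : ℝ) ≤ 1 / D * nb ω v := by
          rw [one_div, inv_mul_eq_div, le_div_iff₀ hD0, one_mul]; exact h5
        calc y v = y v * 1 := (mul_one _).symm
          _ ≤ y v * (1 / D * nb ω v) := mul_le_mul_of_nonneg_left h6 (hy0 v)
          _ = y v * (1 / D) * nb ω v := by ring
      · exact hnn
    calc ∑ ω, x ω * ∑ v ∈ S ω with ¬ nb ω v < D, y v
        ≤ ∑ ω, x ω * ∑ v, y v * (1 / D) * ∑ u, (if (G.Adj u v ∧ ρ u < ρ v ∧ u ∈ S ω ∧ v ∈ S ω) then (1 : ℝ) else 0) :=
          Finset.sum_le_sum fun ω _ => mul_le_mul_of_nonneg_left (h1 ω) (hx0 ω)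
      _ = ∑ v, y v * (1 / D) * ∑ u with ρ u < ρ v, zind G x S u v := by
          simp only [Finset.mul_sum]
          rw [Finset.sum_comm]
          refine Finset.sum_congr rfl fun v _ => ?_
          rw [Finset.sum_comm, Finset.sum_filter]
          refine Finset.sum_congr rfl fun u _ => ?_
          unfold zind
          by_cases h2 : ρ u < ρ v
          · by_cases h3 : G.Adj u v
            · simp only [h2, h3, if_true, true_and]
              rw [Finset.sum_filter, Finset.mul_sum]
              refine Finset.sum_congr rfl fun ω _ => ?_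
              split_ifs <;> ring
            · simp [h3]
          · simp [h2]
      _ ≤ ∑ v, y v * (1 / D) * (2 * A v) := by
          refine Finset.sum_le_sum fun v _ => ?_
          exact mul_le_mul_of_nonneg_left (hback v) (mul_nonneg (hy0 v) (by positivity))
      _ = (2 / (D * Real.log (qq b))) * (σ * L + 1 / r) := by
          have h2 : ∀ v, y v * (1 / D) * (2 * A v)
              = (2 / (D * Real.log (qq b))) * (y v * s v * L + y v * (1 / r)) := by
            intro v
            simp only [hA]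
            field_simp
          simp only [h2]
          rw [← Finset.mul_sum, Finset.sum_add_distrib, ← Finset.sum_mul, ← Finset.sum_mul, hy1, one_mul]
      _ ≤ (2 / (D * Real.log (qq b))) * (σ * (L + 1)) := by
          apply mul_le_mul_of_nonneg_left _ (by positivity)
          linarith
      _ ≤ σ / 2 := by
          have hσ0 : 0 < σ := lt_of_lt_of_le (by positivity) hσr
          rw [log_qq]
          rw [div_le_iff₀ hlog2] at hDle
          have h3 : 2 / ((D : ℝ) * (Real.log 2 / b)) = 2 * b / (D * Real.log 2) := by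
            field_simp
          rw [h3, div_mul_eq_mul_div, div_le_div_iff₀ (by positivity) (by norm_num)]
          nlinarith
  -- so some good part is large
  obtain ⟨ω, hω⟩ : ∃ ω, 1 / (2 * (r : ℝ)) ≤ ∑ v ∈ S' ω, y v := by
    by_contra hcon
    push Not at hcon
    have h1 : ∑ ω, x ω * ∑ v ∈ S' ω, y v < 1 / (2 * (r : ℝ)) := by
      have h2 : ∑ ω, x ω * ∑ v ∈ S' ω, y v < ∑ ω, x ω * (1 / (2 * (r : ℝ))) := by
        obtain ⟨ω0, hω0⟩ : ∃ ω, 0 < x ω := by
          by_contra hc
          push Not at hc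
          have : ∑ ω, x ω ≤ 0 := Finset.sum_nonpos fun ω _ => hc ω
          linarith
        apply Finset.sum_lt_sum
        · intro ω _
          exact mul_le_mul_of_nonneg_left (hcon ω).le (hx0 ω)
        · exact ⟨ω0, Finset.mem_univ _, mul_lt_mul_of_pos_left (hcon ω0) hω0⟩
      rwa [← Finset.sum_mul, hx1, one_mul] at h2
    have h2 : ∑ ω, x ω * ∑ v ∈ S' ω, y v = σ - ∑ ω, x ω * ∑ v ∈ S ω with ¬ nb ω v < D, y v := by
      rw [hσ_eq, ← Finset.sum_sub_distrib]
      refine Finset.sum_congr rfl fun ω _ => ?_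
      simp only [hS']
      rw [← Finset.sum_filter_add_sum_filter_not (S ω) (fun v => nb ω v < D) y]
      ring
    have h3 : 1 / (2 * (r : ℝ)) = 1 / r / 2 := by rw [div_div]; ring
    rw [h2, h3] at h1
    linarith
  -- colour the good part
  have hcol : (G.induce (S' ω : Set V)).Colorable ((D - 1) + 1) := by
    apply colorable_of_rank (G.induce (S' ω : Set V)) (fun v => ρ v.1)
      (fun u v h => Subtype.ext (hρ h)) (D - 1)
    rintro ⟨v, hv⟩
    have hv1 : v ∈ S ω ∧ nb ω v < D := by simpa [hS'] using hv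
    have h1 : (Finset.univ.filter fun u : (S' ω : Set V) =>
        (G.induce (S' ω : Set V)).Adj u ⟨v, hv⟩ ∧ ρ u.1 < ρ v).card ≤ nb ω v := by
      simp only [hnb]
      apply Finset.card_le_card_of_injOn (fun u => u.1)
      · rintro ⟨u, hu⟩ h
        have hu1 : u ∈ S ω ∧ nb ω u < D := by simpa [hS'] using hu
        simp only [Finset.coe_filter, Finset.mem_univ, true_and, Set.mem_setOf_eq,
          SimpleGraph.comap_adj, Function.Embedding.subtype_apply] at h ⊢
        exact ⟨h.1, h.2, hu1.1⟩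
      · intro u _ w _ h
        exact Subtype.ext h
    refine le_trans h1 ?_
    have := hv1.2
    omega
  rw [Nat.sub_add_cancel hDpos] at hcol
  obtain ⟨C⟩ := hcol
  let cls : Fin D → Finset V := fun i => (S' ω).attach.filter (fun v => C ⟨v.1, by simpa using v.2⟩ = i)
    |>.map (Function.Embedding.subtype _)
  have hcls : ∀ i, G.IsIndepSet (cls i : Set V) := by
    intro i u hu v hv hne hadj
    simp only [cls, Finset.coe_map, Finset.coe_filter, Set.mem_image, Set.mem_setOf_eq,
      Finset.mem_attach, true_and] at hu hv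
    obtain ⟨u', hu', rfl⟩ := hu
    obtain ⟨v', hv', rfl⟩ := hv
    have := C.valid (v := ⟨u'.1, by simpa using u'.2⟩) (w := ⟨v'.1, by simpa using v'.2⟩)
      (by simpa using hadj)
    exact this (hu'.trans hv'.symm)
  have hsum : ∑ i, ∑ v ∈ cls i, y v = ∑ v ∈ S' ω, y v := by
    simp only [cls, Finset.sum_map, Function.Embedding.subtype_apply]
    rw [Finset.sum_fiberwise (s := (S' ω).attach) (g := fun v => C ⟨v.1, by simpa using v.2⟩)
      (f := fun v => y v.1)]
    exact Finset.sum_attach (S' ω) y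
  obtain ⟨i, hi⟩ : ∃ i, 1 / (2 * r * D) ≤ ∑ v ∈ cls i, y v := by
    by_contra hcon
    push Not at hcon
    have hne : (Finset.univ : Finset (Fin D)).Nonempty := ⟨⟨0, hDpos⟩, Finset.mem_univ _⟩
    have h1 : ∑ i, ∑ v ∈ cls i, y v < ∑ _i : Fin D, 1 / (2 * (r : ℝ) * D) :=
      Finset.sum_lt_sum_of_nonempty hne fun i _ => hcon i
    rw [hsum, Finset.sum_const, Finset.card_univ, Fintype.card_fin, nsmul_eq_mul] at h1
    have h2 : (D : ℝ) * (1 / (2 * (r : ℝ) * D)) = 1 / (2 * r) := by field_simp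
    rw [h2] at h1
    linarith
  exact ⟨cls i, hcls i, hi⟩

end Pool.Agent.Helper70
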