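import Pool.Agent.Helper75.Ch.Defs

/-!
# Rooted complete minors (Robertson and Seymour, Graph Minors XIII (5.4))

`rooted_of_menger` : from a `K_q` model (`q ≥ k² + 2k + 1`) which is not separated from a set `S` of
`k` vertices by fewer than `k` vertices one gets a `K_k` model rooted at `S`.
-/

set_option autoImplicit false

namespace Pool.Agent.Helper70.Rooted

open Finset Classical Pool.Agent.Helper75.Ch

variable {V : Type*} [Fintype V] {ι : Type*} [Fintype ι]

/-- closed neighbourhood together with `S` -/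
noncomputable def cl (G : SimpleGraph V) (S W : Finset V) : Finset V := W ∪ nb G W ∪ S

/-- the indices in `F` whose set meets `X` -/
noncomputable def tch (A : ι → Finset V) (F : Finset ι) (X : Finset V) : Finset ι :=
  F.filter fun j => ¬ Disjoint (A j) X

/-- size of `X` after contraction of the sets `A j`, `j ∈ F` -/
noncomputable def gg (A : ι → Finset V) (F : Finset ι) (X : Finset V) : ℕ :=
  (X \ F.biUnion A).card + (tch A F X).card

theorem mem_nb {G : SimpleGraph V} {W : Finset V} {y : V} :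
    y ∈ nb G W ↔ y ∉ W ∧ ∃ x ∈ W, G.Adj x y := by
  simp [nb]

theorem subset_cl (G : SimpleGraph V) (S W : Finset V) : W ⊆ cl G S W := by
  intro x hx; simp [cl, hx]

theorem cl_mono {G : SimpleGraph V} {S W W' : Finset V} (h : W ⊆ W') : cl G S W ⊆ cl G S W' := by
  intro y hy
  simp only [cl, mem_union, mem_nb] at hy ⊢
  rcases hy with (hy | ⟨h1, x, hx, hxy⟩) | hy
  · exact Or.inl (Or.inl (h hy))
  · by_cases hy' : y ∈ W'
    · exact Or.inl (Or.inl hy')
    · exact Or.inl (Or.inr ⟨hy', x, h hx, hxy⟩)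
  · exact Or.inr hy

theorem cl_union (G : SimpleGraph V) (S W W' : Finset V) :
    cl G S (W ∪ W') = cl G S W ∪ cl G S W' := by
  apply Subset.antisymm
  · intro y hy
    simp only [cl, mem_union, mem_nb] at hy ⊢
    rcases hy with ((hy | hy) | ⟨h1, x, hx | hx, hxy⟩) | hy
    · exact Or.inl (Or.inl (Or.inl hy))
    · exact Or.inr (Or.inl (Or.inl hy))
    · exact Or.inl (Or.inl (Or.inr ⟨fun h => h1 (Or.inl h), x, hx, hxy⟩))
    · exact Or.inr (Or.inl (Or.inr ⟨fun h => h1 (Or.inr h), x, hx, hxy⟩))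
    · exact Or.inl (Or.inr hy)
  · exact union_subset (cl_mono subset_union_left) (cl_mono subset_union_right)

theorem tch_mono {A : ι → Finset V} {F : Finset ι} {X Y : Finset V} (h : X ⊆ Y) :
    tch A F X ⊆ tch A F Y := by
  intro j hj
  simp only [tch, mem_filter] at hj ⊢
  exact ⟨hj.1, fun hd => hj.2 (hd.mono_right h)⟩

theorem tch_union (A : ι → Finset V) (F : Finset ι) (X Y : Finset V) :
    tch A F (X ∪ Y) = tch A F X ∪ tch A F Y := by
  ext j
  simp only [tch, mem_filter, mem_union, disjoint_union_right]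
  tauto

theorem gg_mono {A : ι → Finset V} {F : Finset ι} {X Y : Finset V} (h : X ⊆ Y) :
    gg A F X ≤ gg A F Y := by
  unfold gg
  exact Nat.add_le_add (card_le_card (sdiff_subset_sdiff h (Subset.refl _)))
    (card_le_card (tch_mono h))

theorem gg_submod (A : ι → Finset V) (F : Finset ι) (X Y : Finset V) :
    gg A F (X ∪ Y) + gg A F (X ∩ Y) ≤ gg A F X + gg A F Y := by
  unfold gg
  have h1 : ((X ∪ Y) \ F.biUnion A).card + ((X ∩ Y) \ F.biUnion A).card =
      (X \ F.biUnion A).card + (Y \ F.biUnion A).card := by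
    rw [← card_union_add_card_inter (X \ F.biUnion A) (Y \ F.biUnion A)]
    congr 2
    · ext x; simp only [mem_sdiff, mem_union]; tauto
    · ext x; simp only [mem_sdiff, mem_inter]; tauto
  have h2 : (tch A F (X ∪ Y)).card + (tch A F (X ∩ Y)).card ≤
      (tch A F X).card + (tch A F Y).card := by
    rw [← card_union_add_card_inter (tch A F X) (tch A F Y), tch_union]
    exact Nat.add_le_add_left (card_le_card (subset_inter (tch_mono inter_subset_left)
      (tch_mono inter_subset_right))) _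
  omega

/-- submodularity of `W ↦ gg A F (cl G S W)` -/
theorem gg_cl_submod (G : SimpleGraph V) (S : Finset V) (A : ι → Finset V) (F : Finset ι)
    (W W' : Finset V) :
    gg A F (cl G S (W ∪ W')) + gg A F (cl G S (W ∩ W')) ≤
      gg A F (cl G S W) + gg A F (cl G S W') := by
  rw [cl_union]
  have h := gg_submod A F (cl G S W) (cl G S W')
  have h2 : gg A F (cl G S (W ∩ W')) ≤ gg A F (cl G S W ∩ cl G S W') :=
    gg_mono (subset_inter (cl_mono inter_subset_left) (cl_mono inter_subset_right))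
  omega

/-- `F` is `n`-linked to `S` -/
def Lk (G : SimpleGraph V) (S : Finset V) (A : ι → Finset V) (F : Finset ι) (n : ℕ) : Prop :=
  ∀ W : Finset V, Disjoint W (F.biUnion A) → n + W.card ≤ gg A F (cl G S W)

theorem exists_out {G : SimpleGraph V} {T W : Finset V} (hT : Conn G T) (h1 : ¬ Disjoint T W)
    (h2 : ¬ T ⊆ W) : ¬ Disjoint T (nb G W) := by
  intro hd
  have h3 : T ∩ W = T := by
    apply hT.2 _ inter_subset_left
    · rw [Finset.not_disjoint_iff] at h1
      obtain ⟨x, hx, hx'⟩ := h1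
      exact ⟨x, mem_inter.2 ⟨hx, hx'⟩⟩
    · intro x hx y hy hxy
      rw [mem_inter] at hx ⊢
      refine ⟨hy, ?_⟩
      by_contra hyW
      rw [Finset.disjoint_left] at hd
      exact hd hy (mem_nb.2 ⟨hyW, x, hx.2, hxy⟩)
  exact h2 (by rw [← h3]; exact inter_subset_right)

theorem step (G : SimpleGraph V) (S : Finset V) (A : ι → Finset V)
    (hA : ∀ i, Conn G (A i)) (hd : ∀ i j, i ≠ j → Disjoint (A i) (A j))
    (ht : ∀ i j, i ≠ j → Touch G (A i) (A j))
    (hsep : ∀ W : Finset V, ((nb G W ∪ S) \ W).card < S.card →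
      ∀ j, ¬ Disjoint (A j) (W ∪ nb G W ∪ S))
    (F : Finset ι) (hFS : ∀ j ∈ F, Disjoint (A j) S) (n : ℕ) (hn : n < S.card)
    (hF : S.card + n ≤ F.card) (hL : Lk G S A F n) :
    ∃ F1 ⊆ F, F.card ≤ F1.card + n ∧ Lk G S A F1 (n + 1) := by
  by_cases hL' : Lk G S A F (n + 1)
  · exact ⟨F, Subset.refl _, by omega, hL'⟩
  -- the set of minimisers
  let Mn : Finset (Finset V) := Finset.univ.filter fun W =>
    Disjoint W (F.biUnion A) ∧ gg A F (cl G S W) ≤ n + W.card
  have hMn : Mn.Nonempty := by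
    unfold Lk at hL'
    push Not at hL'
    obtain ⟨W, h1, h2⟩ := hL'
    exact ⟨W, by simp only [Mn, mem_filter, mem_univ, true_and]; exact ⟨h1, by omega⟩⟩
  obtain ⟨W0, hW0, hmax⟩ := exists_max_image Mn (fun W => W.card) hMn
  have hW0' : Disjoint W0 (F.biUnion A) ∧ gg A F (cl G S W0) ≤ n + W0.card := by
    simpa [Mn] using hW0
  obtain ⟨hW0d, hW0c⟩ := hW0'
  have hsub : ∀ W : Finset V, Disjoint W (F.biUnion A) → gg A F (cl G S W) ≤ n + W.card →
      W ⊆ W0 := by
    intro W h1 h2
    have h3 := gg_cl_submod G S A F W W0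
    have h4 := hL (W ∩ W0) (h1.mono_left inter_subset_left)
    have h5 := card_union_add_card_inter W W0
    have h6 : (W ∪ W0) ∈ Mn := by
      simp only [Mn, mem_filter, mem_univ, true_and]
      refine ⟨disjoint_union_left.2 ⟨h1, hW0d⟩, by omega⟩
    have h7 := hmax _ h6
    have h8 : W0 = W ∪ W0 := eq_of_subset_of_card_le subset_union_right h7
    rw [h8]
    exact subset_union_left
  let F1 : Finset ι := F.filter fun j => Disjoint (A j) (nb G W0)
  have hF1F : F1 ⊆ F := filter_subset _ _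
  have hAd : ∀ {F' : Finset ι}, ∀ j ∈ F', A j ⊆ F'.biUnion A := fun j hj =>
    subset_biUnion_of_mem A hj
  -- number of lost indices
  have hcount : F.card ≤ F1.card + n := by
    have h1 : F.card = F1.card + (F.filter fun j => ¬ Disjoint (A j) (nb G W0)).card :=
      (card_filter_add_card_filter_not _).symm
    have h2 : (F.filter fun j => ¬ Disjoint (A j) (nb G W0)).card ≤
        (tch A F (cl G S W0)).card := by
      apply card_le_card
      intro j hj
      simp only [tch, mem_filter] at hj ⊢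
      refine ⟨hj.1, fun h => hj.2 (h.mono_right ?_)⟩
      intro x hx
      simp [cl, hx]
    have h3 : W0.card ≤ (cl G S W0 \ F.biUnion A).card := by
      apply card_le_card
      intro x hx
      rw [mem_sdiff]
      exact ⟨subset_cl _ _ _ hx, Finset.disjoint_left.1 hW0d hx⟩
    unfold gg at hW0c
    omega
  refine ⟨F1, hF1F, hcount, ?_⟩
  intro W1 hW1
  by_contra hcon
  push Not at hcon
  have hcon' : gg A F1 (cl G S W1) ≤ n + W1.card := by omega
  set X1 : Finset V := cl G S W1 \ W1 with hX1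
  have hX1' : X1 = (nb G W1 ∪ S) \ W1 := by
    ext x
    simp only [hX1, cl, mem_sdiff, mem_union]
    tauto
  -- decomposition of gg A F1 (cl W1)
  have hdec : (cl G S W1 \ F1.biUnion A).card = W1.card + (X1 \ F1.biUnion A).card := by
    rw [← card_union_of_disjoint]
    · congr 1
      ext x
      simp only [hX1, mem_sdiff, mem_union]
      constructor
      · rintro ⟨h1, h2⟩
        by_cases h3 : x ∈ W1
        · exact Or.inl h3
        · exact Or.inr ⟨⟨h1, h3⟩, h2⟩
      · rintro (h | ⟨⟨h1, _⟩, h2⟩)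
        · exact ⟨subset_cl _ _ _ h, Finset.disjoint_left.1 hW1 h⟩
        · exact ⟨h1, h2⟩
    · rw [Finset.disjoint_left]
      intro x hx hx'
      simp only [hX1, mem_sdiff] at hx'
      exact hx'.1.2 hx
  have hb1 : (X1 \ F1.biUnion A).card + (tch A F1 (cl G S W1)).card ≤ n := by
    unfold gg at hcon'
    omega
  -- an untouched index
  obtain ⟨l, hlF1, hl⟩ : ∃ l ∈ F1, Disjoint (A l) (cl G S W1) := by
    by_contra hno
    push Not at hno
    have h1 : F1 ⊆ tch A F1 (cl G S W1) := by
      intro j hj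
      simp only [tch, mem_filter]
      exact ⟨hj, hno j hj⟩
    have h2 := card_le_card h1
    omega
  have hnotin : ∀ j ∈ F, j ∉ F1 → ¬ A j ⊆ W1 := by
    intro j hj hj1 hsub1
    have hjl : j ≠ l := fun h => hj1 (h ▸ hlF1)
    obtain ⟨x, hx, y, hy, hxy⟩ := ht j l hjl
    rw [Finset.disjoint_left] at hl
    apply hl hy
    by_cases hyW : y ∈ W1
    · exact subset_cl _ _ _ hyW
    · simp only [cl, mem_union, mem_nb]
      exact Or.inl (Or.inr ⟨hyW, x, hsub1 hx, hxy⟩)
  set W2 : Finset V := W1 \ F.biUnion A with hW2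
  have hW2d : Disjoint W2 (F.biUnion A) := sdiff_disjoint
  have hW21 : W2 ⊆ W1 := sdiff_subset
  have hL2 := hL W2 hW2d
  -- bound of gg A F (cl W2)
  have hc1 : (cl G S W2 \ F.biUnion A).card ≤ W2.card + (X1 \ F.biUnion A).card := by
    refine (card_le_card ?_).trans (card_union_le _ _)
    intro x hx
    rw [mem_sdiff] at hx
    rw [mem_union]
    by_cases h3 : x ∈ W1
    · exact Or.inl (mem_sdiff.2 ⟨h3, hx.2⟩)
    · exact Or.inr (mem_sdiff.2 ⟨mem_sdiff.2 ⟨cl_mono hW21 hx.1, h3⟩, hx.2⟩)
  set Q : Finset ι := (F \ F1).filter fun j => ¬ Disjoint (A j) X1 with hQ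
  have hc2 : (tch A F (cl G S W2)).card ≤ (tch A F1 (cl G S W2)).card + Q.card := by
    refine (card_le_card ?_).trans (card_union_le _ _)
    intro j hj
    simp only [tch, mem_filter] at hj
    simp only [mem_union, tch, mem_filter, hQ, mem_sdiff]
    by_cases hj1 : j ∈ F1
    · exact Or.inl ⟨hj1, hj.2⟩
    · refine Or.inr ⟨⟨hj.1, hj1⟩, ?_⟩
      rw [Finset.not_disjoint_iff] at hj
      obtain ⟨hjF, y, hyA, hy⟩ := hj
      have hy1 : y ∈ cl G S W1 := cl_mono hW21 hy
      by_cases hyW : y ∈ W1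
      · have h5 : ¬ Disjoint (A j) W1 := by
          rw [Finset.not_disjoint_iff]
          exact ⟨y, hyA, hyW⟩
        have h6 := exists_out (hA j) h5 (hnotin j hjF hj1)
        rw [Finset.not_disjoint_iff] at h6 ⊢
        obtain ⟨z, hz, hz'⟩ := h6
        refine ⟨z, hz, ?_⟩
        rw [hX1', mem_sdiff, mem_union]
        exact ⟨Or.inl hz', (mem_nb.1 hz').1⟩
      · rw [Finset.not_disjoint_iff]
        exact ⟨y, hyA, mem_sdiff.2 ⟨hy1, hyW⟩⟩
  have hQc : Q.card ≤ (X1 ∩ (F \ F1).biUnion A).card := by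
    have hch : ∀ j : ι, ∃ x : V, j ∈ Q → x ∈ A j ∧ x ∈ X1 := by
      intro j
      by_cases hj : j ∈ Q
      · have h := hj
        simp only [hQ, mem_filter, Finset.not_disjoint_iff] at h
        obtain ⟨x, hx, hx'⟩ := h.2
        exact ⟨x, fun _ => ⟨hx, hx'⟩⟩
      · obtain ⟨x, -⟩ := (hA j).1
        exact ⟨x, fun h => absurd h hj⟩
    choose f hf using hch
    apply card_le_card_of_injOn f
    · intro j hj
      have hj' : j ∈ Q := hj
      have h := hj'
      simp only [hQ, mem_filter] at h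
      simp only [coe_inter, Set.mem_inter_iff, mem_coe, mem_biUnion]
      exact ⟨(hf j hj').2, j, h.1, (hf j hj').1⟩
    · intro j hj j' hj' he
      by_contra hne
      have h1 := (hf j hj).1
      have h2 := (hf j' hj').1
      rw [he] at h1
      exact Finset.disjoint_left.1 (hd j j' hne) h1 h2
  have hsplit : (X1 \ F.biUnion A).card + (X1 ∩ (F \ F1).biUnion A).card ≤
      (X1 \ F1.biUnion A).card := by
    rw [← card_union_of_disjoint]
    · apply card_le_card
      intro x hx
      simp only [mem_union, mem_sdiff, mem_inter, mem_biUnion] at hx ⊢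
      rcases hx with ⟨h1, h2⟩ | ⟨h1, j, hj, hxj⟩
      · exact ⟨h1, fun ⟨j, hj, hx⟩ => h2 ⟨j, hF1F hj, hx⟩⟩
      · refine ⟨h1, fun ⟨i, hi, hx⟩ => ?_⟩
        have hij : i ≠ j := fun h => hj.2 (h ▸ hi)
        exact Finset.disjoint_left.1 (hd i j hij) hx hxj
    · rw [Finset.disjoint_left]
      intro x hx hx'
      simp only [mem_sdiff, mem_inter, mem_biUnion] at hx hx'
      obtain ⟨-, j, hj, hxj⟩ := hx'
      exact hx.2 ⟨j, hj.1, hxj⟩
  have hmono : (tch A F1 (cl G S W2)).card ≤ (tch A F1 (cl G S W1)).card :=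
    card_le_card (tch_mono (cl_mono hW21))
  have hW2min : gg A F (cl G S W2) ≤ n + W2.card := by
    unfold gg
    omega
  have hW2W0 : W2 ⊆ W0 := hsub W2 hW2d hW2min
  have hemp : (tch A F1 (cl G S W2)).card = 0 := by
    rw [card_eq_zero, eq_empty_iff_forall_notMem]
    intro j hj
    simp only [tch, mem_filter] at hj
    obtain ⟨hj1, hj2⟩ := hj
    apply hj2
    have hjF := hF1F hj1
    have h1 : Disjoint (A j) (cl G S W0) := by
      unfold cl
      rw [disjoint_union_right, disjoint_union_right]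
      refine ⟨⟨?_, ?_⟩, hFS j hjF⟩
      · exact (hW0d.mono_right (hAd j hjF)).symm
      · have := hj1
        simp only [F1, mem_filter] at this
        exact this.2
    exact h1.mono_right (cl_mono hW2W0)
  unfold gg at hL2
  have ht0 : (tch A F1 (cl G S W1)).card = 0 := by omega
  have hX1n : (X1 \ F1.biUnion A).card = n := by omega
  have hall : ∀ j ∈ F1, Disjoint (A j) (cl G S W1) := by
    intro j hj
    by_contra hne
    rw [card_eq_zero, eq_empty_iff_forall_notMem] at ht0
    apply ht0 j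
    simp only [tch, mem_filter]
    exact ⟨hj, hne⟩
  have hXX : X1 \ F1.biUnion A = X1 := by
    rw [Finset.sdiff_eq_self_iff_disjoint, Finset.disjoint_left]
    intro x hx hx'
    rw [mem_biUnion] at hx'
    obtain ⟨j, hj, hxj⟩ := hx'
    exact Finset.disjoint_left.1 (hall j hj) hxj (mem_sdiff.1 hx).1
  rw [hXX, hX1'] at hX1n
  exact hsep W1 (by omega) l hl

theorem rounds (G : SimpleGraph V) (S : Finset V) (A : ι → Finset V)
    (hA : ∀ i, Conn G (A i)) (hd : ∀ i j, i ≠ j → Disjoint (A i) (A j))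
    (ht : ∀ i j, i ≠ j → Touch G (A i) (A j))
    (hsep : ∀ W : Finset V, ((nb G W ∪ S) \ W).card < S.card →
      ∀ j, ¬ Disjoint (A j) (W ∪ nb G W ∪ S))
    (F : Finset ι) (hFS : ∀ j ∈ F, Disjoint (A j) S) 
    (hF : S.card * S.card + S.card + 1 ≤ F.card) :
    ∀ n ≤ S.card, ∃ F1 ⊆ F, F.card ≤ F1.card + n * (S.card - 1) ∧ Lk G S A F1 n := by
  intro n
  induction n with
  | zero =>
    intro _
    refine ⟨F, Subset.refl _, by omega, ?_⟩
    intro W hW
    unfold gg
    have : W.card ≤ (cl G S W \ F.biUnion A).card := by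
      apply card_le_card
      intro x hx
      rw [mem_sdiff]
      exact ⟨subset_cl _ _ _ hx, Finset.disjoint_left.1 hW hx⟩
    omega
  | succ n ih =>
    intro hn
    obtain ⟨F1, hF1, hc, hL⟩ := ih (by omega)
    have hk : 1 ≤ S.card := by omega
    have hmul : n * (S.card - 1) ≤ (S.card - 1) * (S.card - 1) :=
      Nat.mul_le_mul_right _ (by omega)
    have hsq : (S.card - 1) * (S.card - 1) + 2 * S.card = S.card * S.card + 1 := by
      obtain ⟨m, hm⟩ : ∃ m, S.card = m + 1 := ⟨S.card - 1, by omega⟩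
      rw [hm]
      simp only [Nat.add_sub_cancel]
      ring
    obtain ⟨F2, hF2, hc2, hL2⟩ := step G S A hA hd ht hsep F1 (fun j hj => hFS j (hF1 hj)) n
      (by omega) (by omega) hL
    refine ⟨F2, hF2.trans hF1, ?_, hL2⟩
    have : (n + 1) * (S.card - 1) = n * (S.card - 1) + (S.card - 1) := by ring
    omega

/-- the contraction map -/
noncomputable def ctr (A : ι → Finset V) (F : Finset ι) (r : ι → V) (v : V) : V :=
  if h : ∃ j ∈ F, v ∈ A j then r h.choose else v

section ctr

variable {A : ι → Finset V} {F : Finset ι} {r : ι → V}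

theorem ctr_mem (hd : ∀ i j, i ≠ j → Disjoint (A i) (A j)) {j : ι} (hj : j ∈ F) {v : V}
    (hv : v ∈ A j) : ctr A F r v = r j := by
  have h : ∃ j ∈ F, v ∈ A j := ⟨j, hj, hv⟩
  unfold ctr
  rw [dif_pos h]
  congr 1
  by_contra hne
  exact Finset.disjoint_left.1 (hd _ _ hne) h.choose_spec.2 hv

theorem ctr_notMem {v : V} (hv : v ∉ F.biUnion A) : ctr A F r v = v := by
  unfold ctr
  rw [dif_neg]
  intro ⟨j, hj, hv'⟩
  exact hv (mem_biUnion.2 ⟨j, hj, hv'⟩)

theorem ctr_eq_rep (hd : ∀ i j, i ≠ j → Disjoint (A i) (A j)) (hr : ∀ j, r j ∈ A j) {j : ι}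
    (hj : j ∈ F) {v : V} (hv : ctr A F r v = r j) : v ∈ A j := by
  by_cases h : v ∈ F.biUnion A
  · obtain ⟨i, hi, hvi⟩ := mem_biUnion.1 h
    rw [ctr_mem hd hi hvi] at hv
    by_contra hne
    have hij : i ≠ j := fun h => hne (h ▸ hvi)
    have h1 := hr i
    rw [hv] at h1
    exact Finset.disjoint_left.1 (hd i j hij) h1 (hr j)
  · rw [ctr_notMem h] at hv
    rw [hv]
    exact hr j

theorem ctr_cases (hd : ∀ i j, i ≠ j → Disjoint (A i) (A j)) (v : V) :
    (v ∉ F.biUnion A ∧ ctr A F r v = v) ∨ ∃ j ∈ F, v ∈ A j ∧ ctr A F r v = r j := by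
  by_cases h : v ∈ F.biUnion A
  · obtain ⟨i, hi, hvi⟩ := mem_biUnion.1 h
    exact Or.inr ⟨i, hi, hvi, ctr_mem hd hi hvi⟩
  · exact Or.inl ⟨h, ctr_notMem h⟩

end ctr

/-- the contracted graph (on the same vertex set) -/
def ctrG (G : SimpleGraph V) (c : V → V) : SimpleGraph V where
  Adj x y := x ≠ y ∧ ∃ x' y', c x' = x ∧ c y' = y ∧ G.Adj x' y'
  symm := ⟨fun x y ⟨h1, x', y', h2, h3, h4⟩ => ⟨h1.symm, y', x', h3, h2, h4.symm⟩⟩
  loopless := ⟨fun x h => h.1 rfl⟩

/-- preimages of connected sets are connected -/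
theorem conn_preimage (G : SimpleGraph V) (A : ι → Finset V) (F : Finset ι) (r : ι → V)
    (hA : ∀ i, Conn G (A i)) (hd : ∀ i j, i ≠ j → Disjoint (A i) (A j)) (hr : ∀ j, r j ∈ A j)
    (T : Finset V) (hT : Conn (ctrG G (ctr A F r)) T)
    (hne : ∃ v, ctr A F r v ∈ T) :
    Conn G (Finset.univ.filter fun v => ctr A F r v ∈ T) := by
  obtain ⟨v0, hv0⟩ := hne
  refine ⟨⟨v0, by simp [hv0]⟩, ?_⟩
  intro W hWT hW hcl
  -- W is a union of fibres
  have hfib : ∀ x ∈ W, ∀ y, ctr A F r y = ctr A F r x → y ∈ W := by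
    intro x hx y hxy
    rcases ctr_cases (F := F) (r := r) hd x with ⟨h1, h2⟩ | ⟨j, hj, hxj, h2⟩
    · rcases ctr_cases (F := F) (r := r) hd y with ⟨h3, h4⟩ | ⟨i, hi, hyi, h4⟩
      · rw [h2, h4] at hxy
        rw [hxy]; exact hx
      · exfalso
        rw [h2, h4] at hxy
        apply h1
        rw [← hxy]
        exact mem_biUnion.2 ⟨i, hi, hr i⟩
    · rw [h2] at hxy
      have hyj : y ∈ A j := ctr_eq_rep hd hr hj hxy
      have h3 : W ∩ A j = A j := by
        apply (hA j).2 _ inter_subset_right ⟨x, mem_inter.2 ⟨hx, hxj⟩⟩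
        intro a ha b hb hab
        rw [mem_inter] at ha ⊢
        refine ⟨hcl a ha.1 b ?_ hab, hb⟩
        have h5 : ctr A F r b = ctr A F r x := by rw [ctr_mem hd hj hb, h2]
        simp only [mem_filter, mem_univ, true_and]
        rw [h5]
        have := hWT hx
        simpa using this
      have h6 : y ∈ W ∩ A j := by rw [h3]; exact hyj
      exact (mem_inter.1 h6).1
  have himg : W.image (ctr A F r) = T := by
    apply hT.2
    · intro t ht
      rw [mem_image] at ht
      obtain ⟨x, hx, rfl⟩ := ht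
      have := hWT hx
      simpa using this
    · exact hW.image _
    · intro x hx y hy hxy
      obtain ⟨-, x', y', hx', hy', hadj⟩ := hxy
      rw [mem_image] at hx
      obtain ⟨z, hz, hzx⟩ := hx
      have h1 : x' ∈ W := hfib z hz x' (by rw [hx', hzx])
      have h2 : y' ∈ W := hcl x' h1 y' (by simp [hy', hy]) hadj
      rw [mem_image]
      exact ⟨y', h2, hy'⟩
  apply Subset.antisymm hWT
  intro v hv
  simp only [mem_filter, mem_univ, true_and] at hv
  rw [← himg, mem_image] at hv
  obtain ⟨x, hx, hxv⟩ := hv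
  exact hfib x hx v hxv.symm

/-- (T2), with Menger's theorem as a hypothesis. -/
theorem rooted_of_menger
    (hM : ∀ (H : SimpleGraph V) (A B : Finset V) (k : ℕ),
      (∀ W : Finset V, Disjoint W B → k ≤ ((nb H W ∪ A) \ W).card) →
      ∃ T : Fin k → Finset V,
        (∀ i, Conn H (T i) ∧ (∃ a ∈ A, a ∈ T i) ∧ (∃ b ∈ B, b ∈ T i)) ∧
        (∀ i j, i ≠ j → Disjoint (T i) (T j)))
    (G : SimpleGraph V) (S : Finset V)
    (A : ι → Finset V)
    (hA : ∀ i, Conn G (A i)) (hd : ∀ i j, i ≠ j → Disjoint (A i) (A j))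
    (ht : ∀ i j, i ≠ j → Touch G (A i) (A j))
    (hq : S.card * S.card + 2 * S.card + 1 ≤ Fintype.card ι)
    (hsep : ∀ W : Finset V, ((nb G W ∪ S) \ W).card < S.card →
      ∀ j, ¬ Disjoint (A j) (W ∪ nb G W ∪ S)) :
    ∃ T : V → Finset V, (∀ s ∈ S, s ∈ T s ∧ Conn G (T s)) ∧
      (∀ s ∈ S, ∀ s' ∈ S, s ≠ s' → Disjoint (T s) (T s') ∧ Touch G (T s) (T s')) := by
  have hrep : ∀ j : ι, ∃ x, x ∈ A j := fun j => (hA j).1
  choose r hr using hrep
  -- the indices disjoint from S
  let J0 : Finset ι := Finset.univ.filter fun j => Disjoint (A j) S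
  have hJ0 : S.card * S.card + S.card + 1 ≤ J0.card := by
    have h1 : (Finset.univ : Finset ι).card = J0.card +
        ((Finset.univ : Finset ι).filter fun j => ¬ Disjoint (A j) S).card :=
      (card_filter_add_card_filter_not _).symm
    rw [card_univ] at h1
    have h2 : ((Finset.univ : Finset ι).filter fun j => ¬ Disjoint (A j) S).card ≤ S.card := by
      have hch : ∀ j : ι, ∃ x : V, ¬ Disjoint (A j) S → x ∈ A j ∧ x ∈ S := by
        intro j
        by_cases hj : Disjoint (A j) S
        · exact ⟨r j, fun h => absurd hj h⟩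
        · rw [Finset.not_disjoint_iff] at hj
          obtain ⟨x, hx⟩ := hj
          exact ⟨x, fun _ => hx⟩
      choose f hf using hch
      apply card_le_card_of_injOn f
      · intro j hj
        simp only [coe_filter, mem_univ, true_and, Set.mem_ofPred_eq] at hj
        exact (hf j hj).2
      · intro j hj j' hj' he
        simp only [coe_filter, mem_univ, true_and, Set.mem_ofPred_eq] at hj hj'
        by_contra hne
        have h1 := (hf j hj).1
        have h2 := (hf j' hj').1
        rw [he] at h1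
        exact Finset.disjoint_left.1 (hd j j' hne) h1 h2
    omega
  obtain ⟨F, hFJ, hFc, hL⟩ := rounds G S A hA hd ht hsep J0
    (fun j hj => by simpa [J0] using hj) hJ0 S.card le_rfl
  have hFS : ∀ j ∈ F, Disjoint (A j) S := fun j hj => by
    have := hFJ hj
    simpa [J0] using this
  set c : V → V := ctr A F r with hc
  set H : SimpleGraph V := ctrG G c with hH
  obtain ⟨T, hT, hTd⟩ := hM H S (F.image r) S.card (by
    intro W hW
    set W' : Finset V := W \ F.biUnion A with hW'
    have h1 := hL W' sdiff_disjoint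
    have h2 : (cl G S W' \ F.biUnion A).card ≤
        W'.card + (((nb H W ∪ S) \ W) \ F.biUnion A).card := by
      refine (card_le_card ?_).trans (card_union_le _ _)
      intro x hx
      simp only [cl, mem_sdiff, mem_union, mem_nb] at hx
      simp only [mem_union, mem_sdiff, hW']
      obtain ⟨hx1, hx2⟩ := hx
      by_cases hxW : x ∈ W
      · exact Or.inl ⟨hxW, hx2⟩
      · refine Or.inr ⟨⟨?_, hxW⟩, hx2⟩
        rcases hx1 with (hx1 | ⟨h3, y, hy, hyx⟩) | hx1
        · exact absurd (mem_sdiff.1 hx1).1 hxW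
        · left
          rw [mem_nb]
          rw [hW', mem_sdiff] at hy
          refine ⟨hxW, y, hy.1, ?_, y, x, ctr_notMem hy.2, ctr_notMem hx2, hyx⟩
          exact hyx.ne
        · exact Or.inr hx1
    have h3 : (tch A F (cl G S W')).card ≤ (((nb H W ∪ S) \ W) ∩ F.biUnion A).card := by
      apply card_le_card_of_injOn r
      · intro j hj
        simp only [tch, coe_filter, Set.mem_ofPred_eq, Finset.not_disjoint_iff] at hj
        obtain ⟨hj, y, hyA, hy⟩ := hj
        have hrW : r j ∉ W := fun h => Finset.disjoint_left.1 hW h (mem_image_of_mem r hj)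
        have hyF : y ∈ F.biUnion A := mem_biUnion.2 ⟨j, hj, hyA⟩
        simp only [cl, mem_union, mem_nb] at hy
        simp only [coe_inter, Set.mem_inter_iff, mem_coe]
        refine ⟨?_, mem_biUnion.2 ⟨j, hj, hr j⟩⟩
        rw [mem_sdiff, mem_union]
        refine ⟨Or.inl ?_, hrW⟩
        rcases hy with (hy | ⟨h4, x, hx, hxy⟩) | hy
        · rw [hW', mem_sdiff] at hy
          exact absurd hyF hy.2
        · rw [hW', mem_sdiff] at hx
          rw [mem_nb]
          refine ⟨hrW, x, hx.1, fun h => hrW (h ▸ hx.1), x, y, ctr_notMem hx.2,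
            ctr_mem hd hj hyA, hxy⟩
        · exact absurd hy (Finset.disjoint_left.1 (hFS j hj) hyA)
      · intro j hj j' hj' he
        by_contra hne
        have h1 := hr j
        rw [he] at h1
        exact Finset.disjoint_left.1 (hd j j' hne) h1 (hr j')
    have h4 := card_inter_add_card_sdiff ((nb H W ∪ S) \ W) (F.biUnion A)
    unfold gg at h1
    omega)
  -- choose the points of S
  have hTS : ∀ i, ∃ s ∈ S, s ∈ T i := fun i => (hT i).2.1
  choose σ hσ hσT using hTS
  have hσinj : Function.Injective σ := by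
    intro i j hij
    by_contra hne
    have h1 := hσT i
    rw [hij] at h1
    exact Finset.disjoint_left.1 (hTd i j hne) h1 (hσT j)
  have hσsurj : ∀ s ∈ S, ∃ i, σ i = s := by
    have h1 : (Finset.univ.image σ) = S := by
      apply eq_of_subset_of_card_le
      · intro s hs
        rw [mem_image] at hs
        obtain ⟨i, -, rfl⟩ := hs
        exact hσ i
      · rw [card_image_of_injective _ hσinj]
        simp
    intro s hs
    rw [← h1, mem_image] at hs
    obtain ⟨i, -, hi⟩ := hs
    exact ⟨i, hi⟩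
  have hcS : ∀ s ∈ S, c s = s := by
    intro s hs
    apply ctr_notMem
    intro h
    obtain ⟨j, hj, hsj⟩ := mem_biUnion.1 h
    exact Finset.disjoint_left.1 (hFS j hj) hsj hs
  have hTB : ∀ i, ∃ j ∈ F, r j ∈ T i := by
    intro i
    obtain ⟨b, hb, hbT⟩ := (hT i).2.2
    rw [mem_image] at hb
    obtain ⟨j, hj, rfl⟩ := hb
    exact ⟨j, hj, hbT⟩
  let U : Fin S.card → Finset V := fun i => Finset.univ.filter fun v => c v ∈ T i
  have hU : ∀ i, Conn G (U i) := by
    intro i
    refine conn_preimage G A F r hA hd hr (T i) (hT i).1 ⟨σ i, ?_⟩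
    have : ctr A F r (σ i) = σ i := hcS _ (hσ i)
    rw [this]
    exact hσT i
  have hUd : ∀ i j, i ≠ j → Disjoint (U i) (U j) := by
    intro i j hij
    rw [Finset.disjoint_left]
    intro x hx hx'
    simp only [U, mem_filter, mem_univ, true_and] at hx hx'
    exact Finset.disjoint_left.1 (hTd i j hij) hx hx'
  have hUA : ∀ i, ∃ j ∈ F, A j ⊆ U i := by
    intro i
    obtain ⟨j, hj, hjT⟩ := hTB i
    refine ⟨j, hj, ?_⟩
    intro x hx
    simp only [U, mem_filter, mem_univ, true_and]
    rw [hc, ctr_mem hd hj hx]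
    exact hjT
  have hUt : ∀ i j, i ≠ j → Touch G (U i) (U j) := by
    intro i j hij
    obtain ⟨a, ha, haU⟩ := hUA i
    obtain ⟨b, hb, hbU⟩ := hUA j
    have hab : a ≠ b := by
      rintro rfl
      exact Finset.disjoint_left.1 (hUd i j hij) (haU (hr a)) (hbU (hr a))
    obtain ⟨x, hx, y, hy, hxy⟩ := ht a b hab
    exact ⟨x, haU hx, y, hbU hy, hxy⟩
  choose τ hτ using hσsurj
  refine ⟨fun s => if hs : s ∈ S then U (τ s hs) else ∅, ?_, ?_⟩
  · intro s hs
    simp only [dif_pos hs]
    refine ⟨?_, hU _⟩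
    simp only [U, mem_filter, mem_univ, true_and]
    rw [hcS s hs]
    have := hσT (τ s hs)
    rw [hτ s hs] at this
    exact this
  · intro s hs s' hs' hne
    simp only [dif_pos hs, dif_pos hs']
    have h1 : τ s hs ≠ τ s' hs' := by
      intro h
      apply hne
      rw [← hτ s hs, ← hτ s' hs', h]
    exact ⟨hUd _ _ h1, hUt _ _ h1⟩

end Pool.Agent.Helper70.Rooted
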